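import Mathlib
set_option autoImplicit false

/-! Rota-Baxter operators of weight zero on unital commutative algebras: the operator calculus. -/

namespace Pool.Agent.R696.RBM

open Module (End)

variable {F : Type*} [Field F] {A : Type*} [NonUnitalNonAssocRing A] [Module F A]

/-- Rota-Baxter operators of weight zero -/
def IsRB (R : A →ₗ[F] A) : Prop := ∀ x y : A, R x * R y = R (R x * y + x * R y)

/-- `e` is a unit of the commutative algebra `A` -/
structure CU (e : A) : Prop where
  comm : ∀ x y : A, x * y = y * x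
  one : ∀ x : A, e * x = x

/-- powers of `a` (left normed) with `pw a e 0 = e` -/
def pw (e a : A) : ℕ → A
  | 0 => e
  | k + 1 => a * pw e a k

/-- `g R = R g + R g' R` -/
def Dr (R g g' : End F A) : Prop := g * R = R * g + R * g' * R

theorem Dr.mul {R g g' h h' : End F A} (hg : Dr R g g') (hh : Dr R h h') :
    Dr R (g * h) (g' * h + g * h') := by
  unfold Dr at *
  calc g * h * R = g * (h * R) := by rw [mul_assoc]
    _ = (g * R) * (h + h' * R) := by rw [hh]; noncomm_ring
    _ = R * g * h + R * g * h' * R + R * g' * (R * h + R * h' * R) := by rw [hg]; noncomm_ring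
    _ = R * g * h + R * g * h' * R + R * g' * (h * R) := by rw [hh]
    _ = _ := by noncomm_ring

theorem Dr.add {R g g' h h' : End F A} (hg : Dr R g g') (hh : Dr R h h') :
    Dr R (g + h) (g' + h') := by
  unfold Dr at *
  rw [add_mul, hg, hh]; noncomm_ring

variable [IsScalarTower F A A] [SMulCommClass F A A]

/-- the multiplication operators by the powers -/
def mm (e a : A) (k : ℕ) : End F A := LinearMap.mulLeft F (pw e a k)

/-- the complete symmetric operators -/
def hh (e a : A) : ℕ → End F A
  | 0 => 1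
  | k + 1 => mm e a 1 * hh e a k + mm e a (k + 1)

theorem mm_apply (e a : A) (k : ℕ) (x : A) : mm (F := F) e a k x = pw e a k * x := rfl

theorem mm_zero {e a : A} (hC : CU e) : mm (F := F) e a 0 = 1 := by
  ext x; exact hC.one x

theorem pw_one {e a : A} (hC : CU e) : pw e a 1 = a := by
  show a * e = a
  rw [hC.comm, hC.one]

variable [CharZero F]

theorem R_pw {e : A} {R : A →ₗ[F] A} (hC : CU e) (hR : IsRB R) (k : ℕ) :
    R (pw e (R e) k) = (1 / ((k : F) + 1)) • pw e (R e) (k + 1) := by
  induction k with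
  | zero =>
    show R e = _
    rw [pw_one hC]; simp
  | succ k ih =>
    have h := hR e (pw e (R e) k)
    rw [hC.one, map_add, ih, map_smul] at h
    have h2 : R e * pw e (R e) k = pw e (R e) (k + 1) := rfl
    have h3 : R e * pw e (R e) (k + 1) = pw e (R e) (k + 2) := rfl
    rw [mul_smul_comm, h2, h3] at h
    have hk : ((k : F) + 1) ≠ 0 := by exact_mod_cast Nat.succ_ne_zero k
    have hk2 : ((k : F) + 2) ≠ 0 := by exact_mod_cast (by omega : k + 2 ≠ 0)
    have h4 : (((k : F) + 2) / ((k : F) + 1)) • R (pw e (R e) (k + 1)) =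
        (1 / ((k : F) + 1)) • pw e (R e) (k + 2) := by
      rw [h]
      rw [show ((k : F) + 2) / ((k : F) + 1) = 1 + 1 / ((k : F) + 1) by field_simp; ring]
      module
    have h5 := congrArg (fun z => (((k : F) + 1) / ((k : F) + 2)) • z) h4
    simp only [smul_smul] at h5
    rw [show ((k : F) + 1) / ((k : F) + 2) * (((k : F) + 2) / ((k : F) + 1)) = 1 by field_simp,
      one_smul] at h5
    rw [h5]
    congr 1
    rw [show (((k + 1 : ℕ) : F) + 1) = (k : F) + 2 by push_cast; ring]
    field_simp

theorem Dr_mm {e : A} {R : A →ₗ[F] A} (hC : CU e) (hR : IsRB R) (k : ℕ) :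
    Dr R (mm e (R e) (k + 1)) (((k : F) + 1) • mm e (R e) k) := by
  unfold Dr
  ext x
  have hk : ((k : F) + 1) ≠ 0 := by exact_mod_cast Nat.succ_ne_zero k
  show pw e (R e) (k + 1) * R x = R (pw e (R e) (k + 1) * x) + R (((k : F) + 1) • (pw e (R e) k * R x))
  have h := hR (pw e (R e) k) x
  rw [R_pw hC hR, smul_mul_assoc, smul_mul_assoc, map_add, map_smul] at h
  rw [map_smul]
  have h5 := congrArg (fun z => ((k : F) + 1) • z) h
  simp only [smul_smul, smul_add] at h5
  rw [show ((k : F) + 1) * (1 / ((k : F) + 1)) = 1 by field_simp, one_smul, one_smul] at h5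
  exact h5

omit [CharZero F] in
theorem Dr_mm_zero {e : A} {R : A →ₗ[F] A} (hC : CU e) :
    Dr R (mm e (R e) 0) 0 := by
  unfold Dr
  rw [mm_zero hC]; simp

theorem Dr_hh {e : A} {R : A →ₗ[F] A} (hC : CU e) (hR : IsRB R) (k : ℕ) :
    Dr R (hh e (R e) (k + 1)) (((k : F) + 2) • hh e (R e) k) := by
  induction k with
  | zero =>
    have h1 := Dr_mm (R := R) hC hR 0
    have h0 : Dr R (1 : End F A) 0 := by unfold Dr; simp
    have h2 := (h1.mul h0).add h1
    have e1 : hh (F := F) e (R e) 1 = mm e (R e) (0 + 1) * 1 + mm e (R e) (0 + 1) := rfl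
    show Dr R (hh e (R e) 1) _
    rw [e1]
    convert h2 using 1
    rw [mm_zero hC]
    show ((0 : ℕ) + 2 : F) • (1 : End F A) = _
    simp only [Nat.cast_zero, mul_zero, add_zero, zero_add, mul_one, one_smul]
    module
  | succ k ih =>
    have h1 := Dr_mm (R := R) hC hR 0
    have h2 := Dr_mm (R := R) hC hR (k + 1)
    have h3 := (h1.mul ih).add h2
    have e1 : hh (F := F) e (R e) (k + 1 + 1) =
        mm e (R e) (0 + 1) * hh e (R e) (k + 1) + mm e (R e) (k + 1 + 1) := rfl
    rw [e1]
    convert h3 using 1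
    have e2 : hh (F := F) e (R e) (k + 1) =
        mm e (R e) (0 + 1) * hh e (R e) k + mm e (R e) (k + 1) := rfl
    rw [mm_zero hC, mul_smul_comm]
    simp only [Nat.cast_zero, zero_add, one_smul, one_mul]
    rw [e2]
    simp only [zero_add]
    push_cast
    module

end Pool.Agent.R696.RBM
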