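import Mathlib
set_option autoImplicit false
set_option linter.unusedSectionVars false

/-! Linear algebra of nilpotent operators: centralisers of regular nilpotent operators, with and without
an alternating form. -/

namespace Pool.Agent.R696.RBM

open Module (End finrank)

variable {F : Type*} [Field F] {V : Type*} [AddCommGroup V] [Module F V]

theorem pow_apply_zero {a : End F V} {v : V} {N k : ℕ} (h : (a ^ N) v = 0) (hk : N ≤ k) :
    (a ^ k) v = 0 := by
  obtain ⟨m, rfl⟩ := Nat.exists_eq_add_of_le hk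
  rw [add_comm, pow_add, Module.End.mul_apply, h, map_zero]

theorem pow_pow_apply (a : End F V) (i j : ℕ) (v : V) : (a ^ i) ((a ^ j) v) = (a ^ (i + j)) v := by
  rw [pow_add, Module.End.mul_apply]

theorem indep_pow {a : End F V} {v : V} {N : ℕ} (h1 : (a ^ (N + 1)) v = 0) (h0 : (a ^ N) v ≠ 0)
    (u : ℕ → F) (hu : ∑ k ∈ Finset.range (N + 1), u k • (a ^ k) v = 0) : ∀ k ≤ N, u k = 0 := by
  intro k
  induction k using Nat.strong_induction_on with
  | _ k ih =>
    intro hk
    have h2 := congrArg (a ^ (N - k)) hu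
    rw [map_sum, map_zero] at h2
    simp only [map_smul, pow_pow_apply] at h2
    rw [Finset.sum_eq_single k] at h2
    · rw [show N - k + k = N by omega] at h2
      exact (smul_eq_zero.mp h2).resolve_right h0
    · intro i hi hik
      rw [Finset.mem_range] at hi
      rcases lt_or_gt_of_ne hik with hlt | hgt
      · rw [ih i hlt (by omega), zero_smul]
      · rw [pow_apply_zero h1 (by omega), smul_zero]
    · intro hk'
      exact absurd (Finset.mem_range.mpr (by omega)) hk'

theorem li_pow {a : End F V} {v : V} {N : ℕ} (h1 : (a ^ (N + 1)) v = 0) (h0 : (a ^ N) v ≠ 0) :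
    LinearIndependent F (fun i : Fin (N + 1) => (a ^ (i : ℕ)) v) := by
  rw [Fintype.linearIndependent_iff]
  intro g hg i
  have h2 := indep_pow h1 h0 (fun k => if h : k < N + 1 then g ⟨k, h⟩ else 0) (by
    rw [← Fin.sum_univ_eq_sum_range (fun k => (if h : k < N + 1 then g ⟨k, h⟩ else 0) • (a ^ k) v) (N + 1),
      ← hg]
    apply Finset.sum_congr rfl
    intro j _
    rw [dif_pos j.isLt]) i (by omega)
  rw [dif_pos i.isLt] at h2
  exact h2

/-- the cyclic subspace -/
def cyc (a : End F V) (v : V) (N : ℕ) : Submodule F V :=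
  Submodule.span F (Set.range (fun i : Fin (N + 1) => (a ^ (i : ℕ)) v))

theorem finrank_cyc {a : End F V} {v : V} {N : ℕ} (h1 : (a ^ (N + 1)) v = 0) (h0 : (a ^ N) v ≠ 0) :
    finrank F (cyc a v N) = N + 1 := by
  unfold cyc
  rw [finrank_span_eq_card (li_pow h1 h0), Fintype.card_fin]

theorem mem_cyc {a : End F V} {v : V} {N : ℕ} {w : V} :
    w ∈ cyc a v N ↔ ∃ c : ℕ → F, w = ∑ k ∈ Finset.range (N + 1), c k • (a ^ k) v := by
  unfold cyc
  rw [Submodule.mem_span_range_iff_exists_fun]
  constructor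
  · rintro ⟨g, hg⟩
    refine ⟨fun k => if h : k < N + 1 then g ⟨k, h⟩ else 0, ?_⟩
    rw [← Fin.sum_univ_eq_sum_range (fun k => (if h : k < N + 1 then g ⟨k, h⟩ else 0) • (a ^ k) v) (N + 1),
      ← hg]
    apply Finset.sum_congr rfl
    intro j _
    rw [dif_pos j.isLt]
  · rintro ⟨c, hc⟩
    refine ⟨fun i => c i, ?_⟩
    rw [hc, ← Fin.sum_univ_eq_sum_range (fun k => c k • (a ^ k) v) (N + 1)]

theorem exists_apply_ne {a : End F V} (h : a ≠ 0) : ∃ v, a v ≠ 0 := by
  by_contra hcon
  push Not at hcon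
  exact h (LinearMap.ext (fun x => by rw [hcon x]; rfl))

theorem commute_pow_sum {a z : End F V} (hz : a * z = z * a) (c : ℕ → F) (n : ℕ) :
    a * (z - ∑ k ∈ Finset.range n, c k • a ^ k) = (z - ∑ k ∈ Finset.range n, c k • a ^ k) * a := by
  rw [mul_sub, sub_mul, hz, Finset.mul_sum, Finset.sum_mul]
  congr 1
  apply Finset.sum_congr rfl
  intro k _
  rw [mul_smul_comm, smul_mul_assoc, ← pow_succ', ← pow_succ]

theorem commute_pow_apply {a z : End F V} (hz : a * z = z * a) (k : ℕ) (v : V) :
    z ((a ^ k) v) = (a ^ k) (z v) := by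
  have : Commute a z := hz
  have h2 := (this.pow_left k).eq
  have h3 := congrArg (fun f : End F V => f v) h2
  simpa using h3.symm

/-- The centraliser of a regular nilpotent operator consists of polynomials. -/
theorem centr_regular [Module.Finite F V] {a : End F V} {N : ℕ} (hd : finrank F V = N + 1)
    (h1 : a ^ (N + 1) = 0) (h0 : a ^ N ≠ 0) {z : End F V} (hz : a * z = z * a) :
    ∃ c : ℕ → F, z = ∑ k ∈ Finset.range (N + 1), c k • a ^ k := by
  obtain ⟨v, hv⟩ := exists_apply_ne h0
  have h1v : (a ^ (N + 1)) v = 0 := by rw [h1]; rfl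
  have htop : cyc a v N = ⊤ := by
    apply Submodule.eq_top_of_finrank_eq
    rw [finrank_cyc h1v hv, hd]
  have hmem : ∀ w, ∃ c : ℕ → F, w = ∑ k ∈ Finset.range (N + 1), c k • (a ^ k) v := by
    intro w
    rw [← mem_cyc, htop]; trivial
  obtain ⟨c, hc⟩ := hmem (z v)
  refine ⟨c, ?_⟩
  rw [← sub_eq_zero]
  set z' := z - ∑ k ∈ Finset.range (N + 1), c k • a ^ k with hz'
  have hz'v : z' v = 0 := by
    rw [hz', LinearMap.sub_apply, hc, LinearMap.sum_apply]
    simp
  have hcom := commute_pow_sum hz c (N + 1)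
  rw [← hz'] at hcom
  ext w
  obtain ⟨d, hd'⟩ := hmem w
  rw [hd', map_sum]
  simp only [map_smul, commute_pow_apply hcom, hz'v, map_zero, smul_zero, Finset.sum_const_zero]
  rfl

section form

variable (B : LinearMap.BilinForm F V)

/-- self-adjoint operators -/
def SA (h : End F V) : Prop := ∀ x y, B (h x) y = B x (h y)

theorem SA.pow {a : End F V} (ha : SA B a) (k : ℕ) : SA B (a ^ k) := by
  induction k with
  | zero => intro x y; rfl
  | succ k ih =>
    intro x y
    have e1 : (a ^ (k + 1)) x = a ((a ^ k) x) := by rw [pow_succ']; rfl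
    have e2 : (a ^ (k + 1)) y = (a ^ k) (a y) := by rw [pow_succ]; rfl
    rw [e1, e2, ha, ih]

variable [CharZero F]

/-- self-adjoint operators for an alternating form have zero diagonal -/
theorem SA.diag {B : LinearMap.BilinForm F V} (hB : ∀ x y, B x y = -B y x) {h : End F V} (hh : SA B h)
    (x : V) : B (h x) x = 0 := by
  have h1 := hh x x
  have h2 := hB x (h x)
  rw [h2] at h1
  have h3 : (2 : F) * B (h x) x = 0 := by linear_combination h1
  simpa using h3

theorem cyc_le_orth {B : LinearMap.BilinForm F V} (hB : ∀ x y, B x y = -B y x) {a : End F V} (ha : SA B a)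
    (v : V) (N : ℕ) : cyc a v N ≤ B.orthogonal (cyc a v N) := by
  intro x hx
  rw [LinearMap.BilinForm.mem_orthogonal_iff]
  intro y hy
  rw [mem_cyc] at hx hy
  obtain ⟨c, rfl⟩ := hx
  obtain ⟨d, rfl⟩ := hy
  show B _ _ = 0
  simp only [map_sum, LinearMap.sum_apply, map_smul, LinearMap.smul_apply]
  apply Finset.sum_eq_zero
  intro i _
  rw [Finset.sum_eq_zero, smul_zero]
  intro j _
  have : B ((a ^ j) v) ((a ^ i) v) = 0 := by
    rw [← SA.pow B ha i, pow_pow_apply]
    exact (SA.pow B ha (i + j)).diag hB v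
  simp [this]

/-- nilpotent self-adjoint operators have index at most half the dimension -/
theorem nil_index [Module.Finite F V] {B : LinearMap.BilinForm F V} (hB : ∀ x y, B x y = -B y x)
    (hnd : B.Nondegenerate) {n : ℕ} (hd : finrank F V = 2 * n) {a : End F V} (ha : SA B a)
    (hn : IsNilpotent a) : a ^ n = 0 := by
  by_contra hne
  obtain ⟨v, hv⟩ := exists_apply_ne hne
  have hex : ∃ m, (a ^ m) v = 0 := by
    obtain ⟨m, hm⟩ := hn
    exact ⟨m, by rw [hm]; rfl⟩
  classical
  set m := Nat.find hex with hm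
  have hm0 : (a ^ m) v = 0 := Nat.find_spec hex
  have hmn : n < m := by
    by_contra hle
    exact hv (pow_apply_zero hm0 (by omega))
  obtain ⟨N, hN⟩ : ∃ N, m = N + 1 := ⟨m - 1, by omega⟩
  have hN0 : (a ^ N) v ≠ 0 := Nat.find_min hex (by omega)
  rw [hN] at hm0
  have h1 := finrank_cyc hm0 hN0
  have h2 := Submodule.finrank_mono (cyc_le_orth hB ha v N)
  rw [LinearMap.BilinForm.finrank_orthogonal hnd, h1, hd] at h2
  omega

/-- triangular pairing -/
theorem pair_zero {B : LinearMap.BilinForm F V} {a : End F V} (ha : SA B a) {u w : V} {N : ℕ}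
    (h1 : (a ^ (N + 1)) u = 0) (h0 : B ((a ^ N) u) w ≠ 0) (γ : ℕ → F)
    (h : ∀ k ≤ N, B (∑ i ∈ Finset.range (N + 1), γ i • (a ^ i) u) ((a ^ k) w) = 0) :
    ∀ k ≤ N, γ k = 0 := by
  intro k
  induction k using Nat.strong_induction_on with
  | _ k ih =>
    intro hk
    have h2 := h (N - k) (by omega)
    rw [map_sum, LinearMap.sum_apply, Finset.sum_eq_single k] at h2
    · rw [map_smul, LinearMap.smul_apply, smul_eq_mul, ← SA.pow B ha (N - k), pow_pow_apply,
        show N - k + k = N by omega] at h2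
      exact (mul_eq_zero.mp h2).resolve_right h0
    · intro i hi hik
      rw [Finset.mem_range] at hi
      rw [map_smul, LinearMap.smul_apply, smul_eq_mul, ← SA.pow B ha (N - k), pow_pow_apply]
      rcases lt_or_gt_of_ne hik with hlt | hgt
      · rw [ih i hlt (by omega), zero_mul]
      · rw [pow_apply_zero h1 (by omega), map_zero, LinearMap.zero_apply, mul_zero]
    · intro hk'
      exact absurd (Finset.mem_range.mpr (by omega)) hk'

/-- self-adjoint operators commuting with a regular nilpotent self-adjoint operator -/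
theorem centr_symplectic [Module.Finite F V] {B : LinearMap.BilinForm F V} (hB : ∀ x y, B x y = -B y x)
    (hnd : B.Nondegenerate) {N : ℕ} (hd : finrank F V = 2 * (N + 1)) {a : End F V} (ha : SA B a)
    (h1 : a ^ (N + 1) = 0) (h0 : a ^ N ≠ 0) {z : End F V} (hsz : SA B z) (hz : a * z = z * a) :
    ∃ c : ℕ → F, z = ∑ k ∈ Finset.range (N + 1), c k • a ^ k := by
  have h1v : ∀ v, (a ^ (N + 1)) v = 0 := fun v => by rw [h1]; rfl
  -- cyclic subspaces are lagrangian
  have hlag : ∀ v, (a ^ N) v ≠ 0 → B.orthogonal (cyc a v N) = cyc a v N := by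
    intro v hv
    symm
    apply Submodule.eq_of_le_of_finrank_eq (cyc_le_orth hB ha v N)
    rw [LinearMap.BilinForm.finrank_orthogonal hnd, finrank_cyc (h1v v) hv, hd]
    omega
  have hmem : ∀ (y : End F V), SA B y → a * y = y * a → ∀ v, (a ^ N) v ≠ 0 →
      ∃ c : ℕ → F, y v = ∑ k ∈ Finset.range (N + 1), c k • (a ^ k) v := by
    intro y hy hya v hv
    rw [← mem_cyc, ← hlag v hv, LinearMap.BilinForm.mem_orthogonal_iff]
    intro w hw
    rw [mem_cyc] at hw
    obtain ⟨d, rfl⟩ := hw
    show B _ _ = 0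
    rw [map_sum, LinearMap.sum_apply]
    apply Finset.sum_eq_zero
    intro k _
    rw [map_smul, LinearMap.smul_apply, ← hy, commute_pow_apply hya]
    have hsa : SA B (a ^ k * y) := by
      intro p q
      rw [Module.End.mul_apply, Module.End.mul_apply, SA.pow B ha k, hy, commute_pow_apply hya]
    have := hsa.diag hB v
    rw [Module.End.mul_apply] at this
    rw [this, smul_zero]
  obtain ⟨u, hu⟩ := exists_apply_ne h0
  obtain ⟨c, hc⟩ := hmem z hsz hz u hu
  refine ⟨c, ?_⟩
  rw [← sub_eq_zero]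
  set z' := z - ∑ k ∈ Finset.range (N + 1), c k • a ^ k with hz'
  have hz'u : z' u = 0 := by
    rw [hz', LinearMap.sub_apply, hc, LinearMap.sum_apply]
    simp
  have hcom := commute_pow_sum hz c (N + 1)
  rw [← hz'] at hcom
  have hsz' : SA B z' := by
    intro x y
    rw [hz', LinearMap.sub_apply, LinearMap.sub_apply, map_sub, map_sub, LinearMap.sub_apply, hsz,
      LinearMap.sum_apply, LinearMap.sum_apply, map_sum, map_sum, LinearMap.sum_apply]
    congr 1
    apply Finset.sum_congr rfl
    intro k _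
    rw [LinearMap.smul_apply, LinearMap.smul_apply, map_smul, map_smul, LinearMap.smul_apply,
      SA.pow B ha k]
  -- the second vector
  obtain ⟨w, hw⟩ : ∃ w, B ((a ^ N) u) w ≠ 0 := by
    by_contra hcon
    push Not at hcon
    exact hu (hnd.1 _ hcon)
  have hw0 : (a ^ N) w ≠ 0 := by
    intro h
    apply hw
    rw [SA.pow B ha N, h, map_zero]
  -- image of z' is in cyc u
  have him : ∀ x, z' x ∈ cyc a u N := by
    intro x
    rw [← hlag u hu, LinearMap.BilinForm.mem_orthogonal_iff]
    intro y hy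
    rw [mem_cyc] at hy
    obtain ⟨d, rfl⟩ := hy
    show B _ _ = 0
    rw [map_sum, LinearMap.sum_apply]
    apply Finset.sum_eq_zero
    intro k _
    rw [map_smul, LinearMap.smul_apply, ← hsz', commute_pow_apply hcom, hz'u]
    simp
  -- z' w = 0
  have hz'w : z' w = 0 := by
    obtain ⟨β, hβ⟩ := hmem z' hsz' hcom w hw0
    obtain ⟨γ, hγ⟩ := mem_cyc.mp (him w)
    have hw1 : B ((a ^ N) w) u ≠ 0 := by
      rw [SA.pow B ha N, hB]
      simpa using hw
    have := pair_zero ha (h1v w) hw1 β (by
      intro k _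
      rw [← hβ, hγ, map_sum, LinearMap.sum_apply]
      apply Finset.sum_eq_zero
      intro i _
      rw [map_smul, LinearMap.smul_apply, ← SA.pow B ha k, pow_pow_apply,
        (SA.pow B ha (k + i)).diag hB u, smul_zero])
    rw [hβ]
    apply Finset.sum_eq_zero
    intro k hk
    rw [this k (by have := Finset.mem_range.mp hk; omega), zero_smul]
  ext x
  obtain ⟨γ, hγ⟩ := mem_cyc.mp (him x)
  have := pair_zero ha (h1v u) hw γ (by
    intro k _
    rw [← hγ, hsz', commute_pow_apply hcom, hz'w, map_zero, map_zero])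
  rw [hγ, LinearMap.zero_apply]
  apply Finset.sum_eq_zero
  intro k hk
  rw [this k (by have := Finset.mem_range.mp hk; omega), zero_smul]

end form

end Pool.Agent.R696.RBM
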