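import Pool.Agent.R696.RBM.LowM
set_option autoImplicit false
set_option linter.unusedSectionVars false

/-! Lower bounds for the three families. -/

namespace Pool.Agent.R696.RBM

open Module (End finrank)
open Matrix

variable {F : Type*} [Field F] [CharZero F] {n : ℕ}

theorem MPlus_low (hn : 1 ≤ n) : ∃ R : End F (MPlus F n).El, IsRB R ∧ R ^ (2 * n - 2) ≠ 0 := by
  refine transfer hn (MPlus F n)
    { toFun := fun b => (MPlus F n).mk' b trivial
      map_add' := fun _ _ => rfl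
      map_smul' := fun _ _ => rfl }
    { toFun := fun x => (MPlus F n).val x
      map_add' := fun _ _ => rfl
      map_smul' := fun _ _ => rfl } (fun _ => rfl) ?_ ?_
  · intro b x
    show (MPlus F n).val _ = _
    rw [JSub.val_mul]; rfl
  · intro b c
    apply JSub.ext'
    rw [JSub.val_mul]; rfl

theorem HSymp_low (hn : 1 ≤ n) : ∃ R : End F (HSymp F n).El, IsRB R ∧ R ^ (2 * n - 2) ≠ 0 := by
  refine transfer hn (HSymp F n)
    { toFun := fun b => (HSymp F n).mk' (fromBlocks b 0 0 bᵀ) (by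
        show (fromBlocks b 0 0 bᵀ)ᵀ * J (Fin n) F = J (Fin n) F * fromBlocks b 0 0 bᵀ
        rw [J, fromBlocks_transpose, fromBlocks_multiply, fromBlocks_multiply]
        simp)
      map_add' := fun b c => by
        apply JSub.ext'
        show fromBlocks (b + c) 0 0 (b + c)ᵀ = fromBlocks b 0 0 bᵀ + fromBlocks c 0 0 cᵀ
        rw [fromBlocks_add]; simp
      map_smul' := fun t b => by
        apply JSub.ext'
        show fromBlocks (t • b) 0 0 (t • b)ᵀ = t • fromBlocks b 0 0 bᵀ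
        rw [fromBlocks_smul]; simp }
    { toFun := fun x => ((HSymp F n).val x).toBlocks₁₁
      map_add' := fun _ _ => rfl
      map_smul' := fun _ _ => rfl } (fun _ => rfl) ?_ ?_
  · intro b x
    show ((HSymp F n).val _).toBlocks₁₁ = _
    rw [JSub.val_mul]
    show ((1 / 2 : F) • (fromBlocks b 0 0 bᵀ * (HSymp F n).val x +
      (HSymp F n).val x * fromBlocks b 0 0 bᵀ)).toBlocks₁₁ =
      (1 / 2 : F) • (b * ((HSymp F n).val x).toBlocks₁₁ + ((HSymp F n).val x).toBlocks₁₁ * b)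
    obtain ⟨A, B, C, D, hX⟩ : ∃ A B C D, (HSymp F n).val x = fromBlocks A B C D :=
      ⟨_, _, _, _, (fromBlocks_toBlocks _).symm⟩
    rw [hX, fromBlocks_multiply, fromBlocks_multiply, fromBlocks_add, fromBlocks_smul]
    simp
  · intro b c
    apply JSub.ext'
    rw [JSub.val_mul]
    show (1 / 2 : F) • (fromBlocks b 0 0 bᵀ * fromBlocks c 0 0 cᵀ +
      fromBlocks c 0 0 cᵀ * fromBlocks b 0 0 bᵀ) =
      fromBlocks ((1 / 2 : F) • (b * c + c * b)) 0 0 ((1 / 2 : F) • (b * c + c * b))ᵀ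
    rw [fromBlocks_multiply, fromBlocks_multiply, fromBlocks_add, fromBlocks_smul]
    simp [add_comm]

section sym

variable {m r : ℕ} (w : F)

/-- the block embedding of `M_m(F)` -/
def Bl (m r : ℕ) (w : F) (b : Matrix (Fin m) (Fin m) F) :
    Matrix ((Fin m ⊕ Fin m) ⊕ Fin r) ((Fin m ⊕ Fin m) ⊕ Fin r) F :=
  fromBlocks (fromBlocks ((1 / 2 : F) • (b + bᵀ)) ((w / 2) • (b - bᵀ)) (-(w / 2) • (b - bᵀ))
    ((1 / 2 : F) • (b + bᵀ))) 0 0 0

/-- the projection -/
def Pr (m r : ℕ) (w : F) (x : Matrix ((Fin m ⊕ Fin m) ⊕ Fin r) ((Fin m ⊕ Fin m) ⊕ Fin r) F) :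
    Matrix (Fin m) (Fin m) F :=
  (1 / 2 : F) • (x.toBlocks₁₁.toBlocks₁₁ + x.toBlocks₁₁.toBlocks₂₂) -
    (w / 2) • (x.toBlocks₁₁.toBlocks₁₂ - x.toBlocks₁₁.toBlocks₂₁)

theorem Pr_add (x y : Matrix ((Fin m ⊕ Fin m) ⊕ Fin r) ((Fin m ⊕ Fin m) ⊕ Fin r) F) :
    Pr m r w (x + y) = Pr m r w x + Pr m r w y := by
  apply Matrix.ext
  intro i j
  simp only [Pr, Matrix.sub_apply, Matrix.smul_apply, Matrix.add_apply, toBlocks₁₁, toBlocks₂₂,
    toBlocks₁₂, toBlocks₂₁, Matrix.of_apply, smul_eq_mul]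
  ring

theorem Pr_smul (t : F) (x : Matrix ((Fin m ⊕ Fin m) ⊕ Fin r) ((Fin m ⊕ Fin m) ⊕ Fin r) F) :
    Pr m r w (t • x) = t • Pr m r w x := by
  apply Matrix.ext
  intro i j
  simp only [Pr, Matrix.sub_apply, Matrix.smul_apply, Matrix.add_apply, toBlocks₁₁, toBlocks₂₂,
    toBlocks₁₂, toBlocks₂₁, Matrix.of_apply, smul_eq_mul]
  ring

theorem Bl_transpose (b : Matrix (Fin m) (Fin m) F) : (Bl m r w b)ᵀ = Bl m r w b := by
  unfold Bl
  rw [fromBlocks_transpose, fromBlocks_transpose]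
  simp only [transpose_smul, transpose_add, transpose_sub, transpose_transpose, transpose_zero]
  congr 1
  rw [add_comm bᵀ b]
  congr 1
  · module
  · module

theorem Pr_Bl (hw : w * w = -1) (b : Matrix (Fin m) (Fin m) F) : Pr m r w (Bl m r w b) = b := by
  unfold Pr Bl
  simp only [toBlocks_fromBlocks₁₁, toBlocks_fromBlocks₁₂, toBlocks_fromBlocks₂₁,
    toBlocks_fromBlocks₂₂]
  have : (w / 2) • ((w / 2) • (b - bᵀ) - -(w / 2) • (b - bᵀ)) = (w * w / 2) • (b - bᵀ) := by
    module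
  rw [this, hw]
  module

theorem Pr_mul_left (hw : w * w = -1) (b : Matrix (Fin m) (Fin m) F)
    (x : Matrix ((Fin m ⊕ Fin m) ⊕ Fin r) ((Fin m ⊕ Fin m) ⊕ Fin r) F) :
    Pr m r w (Bl m r w b * x) = b * Pr m r w x := by
  obtain ⟨X, Y, Z, T, rfl⟩ : ∃ A B C D, x = fromBlocks A B C D :=
      ⟨_, _, _, _, (fromBlocks_toBlocks _).symm⟩
  obtain ⟨P, Q, U, V, rfl⟩ : ∃ A B C D, X = fromBlocks A B C D :=
      ⟨_, _, _, _, (fromBlocks_toBlocks _).symm⟩
  unfold Pr Bl
  rw [fromBlocks_multiply]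
  simp only [toBlocks_fromBlocks₁₁, Matrix.zero_mul, add_zero]
  rw [fromBlocks_multiply]
  simp only [toBlocks_fromBlocks₁₁, toBlocks_fromBlocks₁₂, toBlocks_fromBlocks₂₁,
    toBlocks_fromBlocks₂₂, smul_mul_assoc, add_mul, sub_mul, mul_add, mul_sub, mul_smul_comm]
  match_scalars <;> first
    | ring1
    | linear_combination (1 / 4 : F) * hw
    | linear_combination (-1 / 4 : F) * hw

theorem Pr_mul_right (hw : w * w = -1) (b : Matrix (Fin m) (Fin m) F)
    (x : Matrix ((Fin m ⊕ Fin m) ⊕ Fin r) ((Fin m ⊕ Fin m) ⊕ Fin r) F) :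
    Pr m r w (x * Bl m r w b) = Pr m r w x * b := by
  obtain ⟨X, Y, Z, T, rfl⟩ : ∃ A B C D, x = fromBlocks A B C D :=
      ⟨_, _, _, _, (fromBlocks_toBlocks _).symm⟩
  obtain ⟨P, Q, U, V, rfl⟩ : ∃ A B C D, X = fromBlocks A B C D :=
      ⟨_, _, _, _, (fromBlocks_toBlocks _).symm⟩
  unfold Pr Bl
  rw [fromBlocks_multiply]
  simp only [toBlocks_fromBlocks₁₁, Matrix.mul_zero, add_zero]
  rw [fromBlocks_multiply]
  simp only [toBlocks_fromBlocks₁₁, toBlocks_fromBlocks₁₂, toBlocks_fromBlocks₂₁,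
    toBlocks_fromBlocks₂₂, smul_mul_assoc, add_mul, sub_mul, mul_add, mul_sub, mul_smul_comm]
  match_scalars <;> first
    | ring1
    | linear_combination (1 / 4 : F) * hw
    | linear_combination (-1 / 4 : F) * hw

theorem Bl_mul (hw : w * w = -1) (b c : Matrix (Fin m) (Fin m) F) :
    (1 / 2 : F) • (Bl m r w b * Bl m r w c + Bl m r w c * Bl m r w b) =
      Bl m r w ((1 / 2 : F) • (b * c + c * b)) := by
  unfold Bl
  rw [fromBlocks_multiply, fromBlocks_multiply, fromBlocks_multiply, fromBlocks_multiply]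
  simp only [Matrix.mul_zero, Matrix.zero_mul, add_zero]
  rw [fromBlocks_add, fromBlocks_add, fromBlocks_smul, fromBlocks_smul]
  simp only [smul_zero, add_zero, transpose_smul, transpose_add, transpose_mul]
  congr 1
  congr 1
  all_goals
    simp only [smul_mul_assoc, add_mul, sub_mul, mul_add, mul_sub, mul_smul_comm, smul_add, smul_sub]
    match_scalars <;> first
      | ring1
      | linear_combination (1 / 4 : F) * hw
      | linear_combination (-1 / 4 : F) * hw
      | linear_combination (1 / 2 : F) * hw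
      | linear_combination (-1 / 2 : F) * hw
      | linear_combination (1 / 8 : F) * hw
      | linear_combination (-1 / 8 : F) * hw

/-- the index bijection -/
def idx (m n : ℕ) (h : 2 * m ≤ n) : (Fin m ⊕ Fin m) ⊕ Fin (n - 2 * m) ≃ Fin n :=
  ((Equiv.sumCongr finSumFinEquiv (Equiv.refl _)).trans finSumFinEquiv).trans (finCongr (by omega))

theorem HSym_low {m n : ℕ} (hm : 1 ≤ m) (hmn : 2 * m ≤ n) (w : F) (hw : w * w = -1) :
    ∃ R : End F (HSym F n).El, IsRB R ∧ R ^ (2 * m - 2) ≠ 0 := by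
  set ρ := Matrix.reindexAlgEquiv F F (idx m n hmn) with hρ
  have hρt : ∀ x, (ρ x)ᵀ = ρ (xᵀ) := by
    intro x
    rw [hρ]
    simp [Matrix.coe_reindexAlgEquiv, Matrix.reindex_apply]
  refine transfer hm (HSym F n)
    { toFun := fun b => (HSym F n).mk' (ρ (Bl m _ w b)) (by
        show (ρ (Bl m _ w b))ᵀ = ρ (Bl m _ w b)
        rw [hρt, Bl_transpose])
      map_add' := fun b c => by
        apply JSub.ext'
        show ρ (Bl m _ w (b + c)) = ρ (Bl m _ w b) + ρ (Bl m _ w c)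
        rw [← map_add]
        congr 1
        unfold Bl
        rw [fromBlocks_add, fromBlocks_add]
        simp only [add_zero, transpose_add]
        congr 1
        congr 1 <;> module
      map_smul' := fun t b => by
        apply JSub.ext'
        show ρ (Bl m _ w (t • b)) = t • ρ (Bl m _ w b)
        rw [← map_smul]
        congr 1
        unfold Bl
        rw [fromBlocks_smul, fromBlocks_smul]
        simp only [smul_zero, transpose_smul]
        congr 1
        congr 1 <;> module }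
    { toFun := fun x => Pr m _ w (ρ.symm ((HSym F n).val x))
      map_add' := fun x y => by
        rw [JSub.val_add, map_add, Pr_add]
      map_smul' := fun t x => by
        rw [JSub.val_smul, map_smul, Pr_smul]; rfl } ?_ ?_ ?_
  · intro b
    show Pr m _ w (ρ.symm (ρ (Bl m _ w b))) = b
    rw [AlgEquiv.symm_apply_apply, Pr_Bl w hw]
  · intro b x
    show Pr m _ w (ρ.symm ((HSym F n).val _)) = _
    rw [JSub.val_mul]
    show Pr m _ w (ρ.symm ((1 / 2 : F) • (ρ (Bl m _ w b) * (HSym F n).val x +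
      (HSym F n).val x * ρ (Bl m _ w b)))) = (1 / 2 : F) • (b * Pr m _ w (ρ.symm ((HSym F n).val x)) +
      Pr m _ w (ρ.symm ((HSym F n).val x)) * b)
    rw [map_smul, map_add, map_mul, map_mul, AlgEquiv.symm_apply_apply]
    rw [Pr_smul, Pr_add, Pr_mul_left w hw, Pr_mul_right w hw]
  · intro b c
    apply JSub.ext'
    rw [JSub.val_mul]
    show (1 / 2 : F) • (ρ (Bl m _ w b) * ρ (Bl m _ w c) + ρ (Bl m _ w c) * ρ (Bl m _ w b)) =
      ρ (Bl m _ w ((1 / 2 : F) • (b * c + c * b)))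
    rw [← map_mul, ← map_mul, ← map_add, ← map_smul, Bl_mul w hw]

end sym

end Pool.Agent.R696.RBM
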