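import Pool.Agent.R696.RBM.Mat
set_option autoImplicit false
set_option linter.unusedSectionVars false

/-! A Rota-Baxter operator of weight zero on `M_n(F)` of nilpotency index at least `2 n - 1`. -/

namespace Pool.Agent.R696.RBM

open Module (End finrank)
open Matrix

variable {F : Type*} [Field F] {n : ℕ}

/-- extension by zero -/
def ext0 (x : Matrix (Fin n) (Fin n) F) (i j : ℕ) : F :=
  if h : i < n ∧ j < n then x ⟨i, h.1⟩ ⟨j, h.2⟩ else 0

theorem ext0_add (x y : Matrix (Fin n) (Fin n) F) (i j : ℕ) : ext0 (x + y) i j = ext0 x i j + ext0 y i j := by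
  unfold ext0; split_ifs <;> simp

theorem ext0_smul (c : F) (x : Matrix (Fin n) (Fin n) F) (i j : ℕ) : ext0 (c • x) i j = c * ext0 x i j := by
  unfold ext0; split_ifs <;> simp

theorem ext0_big (x : Matrix (Fin n) (Fin n) F) {i : ℕ} (j : ℕ) (h : n ≤ i) : ext0 x i j = 0 := by
  unfold ext0; rw [dif_neg]; omega

theorem ext0_fin (x : Matrix (Fin n) (Fin n) F) (i j : Fin n) : ext0 x i j = x i j := by
  unfold ext0; rw [dif_pos ⟨i.2, j.2⟩]

theorem ext0_mul (x y : Matrix (Fin n) (Fin n) F) {i j : ℕ} (hi : i < n) (hj : j < n) :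
    ext0 (x * y) i j = ∑ k ∈ Finset.range n, ext0 x i k * ext0 y k j := by
  rw [← Fin.sum_univ_eq_sum_range (fun k => ext0 x i k * ext0 y k j) n]
  have h1 : ext0 (x * y) i j = (x * y) ⟨i, hi⟩ ⟨j, hj⟩ := ext0_fin _ ⟨i, hi⟩ ⟨j, hj⟩
  rw [h1, Matrix.mul_apply]
  apply Finset.sum_congr rfl
  intro k _
  rw [← ext0_fin x, ← ext0_fin y]

/-- partial sums along diagonals -/
def Rf (n : ℕ) (X : ℕ → ℕ → F) (p q : ℕ) : F :=
  if p ≤ q then ∑ k ∈ Finset.range p, X (p - 1 - k) (q - k)
  else -∑ k ∈ Finset.range n, X (p + k) (q + 1 + k)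

theorem Rf_zero (X : ℕ → ℕ → F) (q : ℕ) : Rf n X 0 q = 0 := by
  unfold Rf; simp

theorem Rf_rec (X : ℕ → ℕ → F) (hX : ∀ i j, n ≤ i → X i j = 0) (i j : ℕ) :
    Rf n X (i + 1) (j + 1) = Rf n X i j + X i (j + 1) := by
  unfold Rf
  by_cases h : i ≤ j
  · rw [if_pos (by omega), if_pos h, Finset.sum_range_succ']
    congr 1
    apply Finset.sum_congr rfl
    intro k hk
    have := Finset.mem_range.mp hk
    congr 1 <;> omega
  · rw [if_neg (by omega), if_neg h]
    have h1 : ∑ k ∈ Finset.range n, X (i + k) (j + 1 + k) + X (i + n) (j + 1 + n) =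
        ∑ k ∈ Finset.range n, X (i + 1 + k) (j + 1 + 1 + k) + X i (j + 1) := by
      rw [← Finset.sum_range_succ (fun k => X (i + k) (j + 1 + k)), Finset.sum_range_succ']
      congr 1
      apply Finset.sum_congr rfl
      intro k _
      congr 1 <;> omega
    rw [hX (i + n) _ (by omega), add_zero] at h1
    rw [h1]; ring

theorem Rf_top (X : ℕ → ℕ → F) (hX : ∀ i j, n ≤ i → X i j = 0) {q : ℕ} (hq : q < n) :
    Rf n X n q = 0 := by
  unfold Rf
  rw [if_neg (by omega), neg_eq_zero]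
  apply Finset.sum_eq_zero
  intro k _
  exact hX _ _ (by omega)

theorem uniq (b : ℕ → ℕ → F) (h0 : ∀ q < n, b 0 q = 0) (h1 : ∀ q < n, b n q = 0)
    (hrec : ∀ i j, i < n → j + 1 < n → b (i + 1) (j + 1) = b i j) :
    ∀ p q, p < n → q < n → b p q = 0 := by
  have hA : ∀ p q, p < n → q < n → p ≤ q → b p q = 0 := by
    intro p
    induction p with
    | zero => intro q _ hq _; exact h0 q hq
    | succ p ih =>
      intro q hp hq hpq
      obtain ⟨r, rfl⟩ : ∃ r, q = r + 1 := ⟨q - 1, by omega⟩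
      rw [hrec p r (by omega) hq]
      exact ih r (by omega) (by omega) (by omega)
  have hB : ∀ m p q, n - p = m → p ≤ n → q < n → q < p → b p q = 0 := by
    intro m
    induction m with
    | zero =>
      intro p q hm hp hq _
      have : p = n := by omega
      rw [this]; exact h1 q hq
    | succ m ih =>
      intro p q hm hp hq hqp
      rw [← hrec p q (by omega) (by omega)]
      exact ih (p + 1) (q + 1) (by omega) (by omega) (by omega) (by omega)
  intro p q hp hq
  by_cases h : p ≤ q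
  · exact hA p q hp hq h
  · exact hB _ p q rfl hp.le hq (by omega)

/-- the operator -/
def Rm (n : ℕ) : Matrix (Fin n) (Fin n) F →ₗ[F] Matrix (Fin n) (Fin n) F where
  toFun x := Matrix.of fun p q => Rf n (ext0 x) p q
  map_add' x y := by
    ext p q
    simp only [Matrix.of_apply, Matrix.add_apply, Rf, ext0_add]
    split_ifs
    · rw [Finset.sum_add_distrib]
    · rw [Finset.sum_add_distrib]; ring
  map_smul' c x := by
    ext p q
    simp only [Matrix.of_apply, Matrix.smul_apply, Rf, ext0_smul, RingHom.id_apply, smul_eq_mul]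
    split_ifs
    · rw [Finset.mul_sum]
    · rw [← Finset.mul_sum]; ring

theorem ext0_Rm (x : Matrix (Fin n) (Fin n) F) {p q : ℕ} (hp : p < n) (hq : q < n) :
    ext0 (Rm n x) p q = Rf n (ext0 x) p q := by
  unfold ext0
  rw [dif_pos ⟨hp, hq⟩]; rfl

theorem Rm_rb (x y : Matrix (Fin n) (Fin n) F) : Rm n x * Rm n y = Rm n (Rm n x * y + x * Rm n y) := by
  have hbx : ∀ i j, n ≤ i → ext0 x i j = 0 := fun i j h => ext0_big x j h
  have hby : ∀ i j, n ≤ i → ext0 y i j = 0 := fun i j h => ext0_big y j h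
  set z := Rm n x * y + x * Rm n y with hz
  have hbz : ∀ i j, n ≤ i → ext0 z i j = 0 := fun i j h => ext0_big z j h
  have hzz : ∀ i j, i < n → j < n → ext0 z i j =
      ∑ k ∈ Finset.range n, Rf n (ext0 x) i k * ext0 y k j +
      ∑ k ∈ Finset.range n, ext0 x i k * Rf n (ext0 y) k j := by
    intro i j hi hj
    rw [hz, ext0_add, ext0_mul _ _ hi hj, ext0_mul _ _ hi hj]
    congr 1
    · apply Finset.sum_congr rfl
      intro k hk
      rw [ext0_Rm x hi (Finset.mem_range.mp hk)]
    · apply Finset.sum_congr rfl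
      intro k hk
      rw [ext0_Rm y (Finset.mem_range.mp hk) hj]
  have hmain := uniq (n := n) (fun p q => ∑ k ∈ Finset.range n, Rf n (ext0 x) p k * Rf n (ext0 y) k q -
      Rf n (ext0 z) p q) ?_ ?_ ?_
  · apply Matrix.ext
    intro p q
    have h1 := hmain p q p.2 q.2
    rw [← ext0_fin (Rm n x * Rm n y), ← ext0_fin (Rm n z), ext0_Rm z p.2 q.2, ext0_mul _ _ p.2 q.2,
      ← sub_eq_zero, ← h1]
    congr 1
    apply Finset.sum_congr rfl
    intro k hk
    rw [ext0_Rm x p.2 (Finset.mem_range.mp hk), ext0_Rm y (Finset.mem_range.mp hk) q.2]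
  · intro q hq
    simp only [Rf_zero, zero_mul, Finset.sum_const_zero, sub_zero]
  · intro q hq
    show ∑ k ∈ Finset.range n, Rf n (ext0 x) n k * Rf n (ext0 y) k q - Rf n (ext0 z) n q = 0
    rw [Rf_top _ hbz hq, sub_zero]
    apply Finset.sum_eq_zero
    intro k hk
    rw [Rf_top _ hbx (Finset.mem_range.mp hk), zero_mul]
  · intro i j hi hj
    show ∑ k ∈ Finset.range n, Rf n (ext0 x) (i + 1) k * Rf n (ext0 y) k (j + 1) -
      Rf n (ext0 z) (i + 1) (j + 1) =
      ∑ k ∈ Finset.range n, Rf n (ext0 x) i k * Rf n (ext0 y) k j - Rf n (ext0 z) i j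
    rw [Rf_rec _ hbz, hzz i (j + 1) hi hj]
    obtain ⟨m, hm⟩ : ∃ m, n = m + 1 := ⟨n - 1, by omega⟩
    -- first sum
    have e1 : ∑ k ∈ Finset.range n, Rf n (ext0 x) (i + 1) k * Rf n (ext0 y) k (j + 1) =
        ∑ k ∈ Finset.range m, Rf n (ext0 x) i k * Rf n (ext0 y) (k + 1) (j + 1) +
        ∑ k ∈ Finset.range n, ext0 x i k * Rf n (ext0 y) k (j + 1) := by
      have e2 : ∑ k ∈ Finset.range n, Rf n (ext0 x) (i + 1) k * Rf n (ext0 y) k (j + 1) =
          ∑ k ∈ Finset.range m, Rf n (ext0 x) (i + 1) (k + 1) * Rf n (ext0 y) (k + 1) (j + 1) := by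
        nth_rewrite 1 [hm]
        rw [Finset.sum_range_succ', Rf_zero, mul_zero, add_zero]
      have e3 : ∑ k ∈ Finset.range n, ext0 x i k * Rf n (ext0 y) k (j + 1) =
          ∑ k ∈ Finset.range m, ext0 x i (k + 1) * Rf n (ext0 y) (k + 1) (j + 1) := by
        nth_rewrite 1 [hm]
        rw [Finset.sum_range_succ', Rf_zero, mul_zero, add_zero]
      rw [e2, e3, ← Finset.sum_add_distrib]
      apply Finset.sum_congr rfl
      intro k _
      rw [Rf_rec _ hbx]; ring
    have e4 : ∑ k ∈ Finset.range m, Rf n (ext0 x) i k * Rf n (ext0 y) (k + 1) (j + 1) =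
        ∑ k ∈ Finset.range n, Rf n (ext0 x) i k * Rf n (ext0 y) (k + 1) (j + 1) := by
      have hr : Finset.range n = Finset.range (m + 1) := by rw [hm]
      rw [hr, Finset.sum_range_succ, ← hm, Rf_top _ hby hj, mul_zero, add_zero]
    have e5 : ∑ k ∈ Finset.range n, Rf n (ext0 x) i k * Rf n (ext0 y) (k + 1) (j + 1) =
        ∑ k ∈ Finset.range n, Rf n (ext0 x) i k * Rf n (ext0 y) k j +
        ∑ k ∈ Finset.range n, Rf n (ext0 x) i k * ext0 y k (j + 1) := by
      rw [← Finset.sum_add_distrib]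
      apply Finset.sum_congr rfl
      intro k _
      rw [Rf_rec _ hby]; ring
    rw [e1, e4, e5]; ring

/-- the bottom row is shifted -/
theorem bottom {n : ℕ} (x : Matrix (Fin n) (Fin n) F) {j : ℕ} (hj : j + 1 < n) :
    ext0 (Rm n x) (n - 1) j = -ext0 x (n - 1) (j + 1) := by
  have hbx : ∀ i j, n ≤ i → ext0 x i j = 0 := fun i j h => ext0_big x j h
  have h := Rf_rec (n := n) (ext0 x) hbx (n - 1) j
  rw [show n - 1 + 1 = n by omega, Rf_top _ hbx hj] at h
  rw [ext0_Rm x (by omega) (by omega)]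
  linear_combination -h

theorem bottom_pow {n : ℕ} (x : Matrix (Fin n) (Fin n) F) (k : ℕ) (hk : k < n) :
    ext0 (((Rm n : End F _) ^ k) x) (n - 1) (n - 1 - k) = (-1) ^ k * ext0 x (n - 1) (n - 1) := by
  induction k with
  | zero => simp
  | succ k ih =>
    rw [pow_succ', Module.End.mul_apply, bottom _ (by omega), show n - 1 - (k + 1) + 1 = n - 1 - k by omega,
      ih (by omega), pow_succ]
    ring

/-- matrix units of the last column -/
def colE (n i : ℕ) : Matrix (Fin n) (Fin n) F := Matrix.of fun p q => if (p : ℕ) = i ∧ (q : ℕ) + 1 = n then 1 else 0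

theorem ext0_colE {n i : ℕ} (hi : i < n) (p q : ℕ) : ext0 (colE n i : Matrix (Fin n) (Fin n) F) p q =
    if p = i ∧ q + 1 = n then 1 else 0 := by
  unfold ext0 colE
  by_cases h : p < n ∧ q < n
  · rw [dif_pos h]; rfl
  · rw [dif_neg h, if_neg]
    omega

theorem Rm_colE {n i : ℕ} (hi : i + 1 < n) : Rm n (colE n i : Matrix (Fin n) (Fin n) F) = colE n (i + 1) := by
  apply Matrix.ext
  intro p q
  rw [← ext0_fin (Rm n (colE n i)), ← ext0_fin (colE n (i + 1)), ext0_Rm _ p.2 q.2, ext0_colE hi]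
  unfold Rf
  have hp := p.2
  have hq := q.2
  by_cases h : (p : ℕ) ≤ (q : ℕ)
  · rw [if_pos h]
    by_cases h2 : (p : ℕ) = i + 1 ∧ (q : ℕ) + 1 = n
    · rw [if_pos h2, Finset.sum_eq_single 0]
      · rw [ext0_colE (by omega), if_pos (by omega)]
      · intro k _ hk
        rw [ext0_colE (by omega), if_neg (by omega)]
      · intro h3
        exact absurd (Finset.mem_range.mpr (by omega)) h3
    · rw [if_neg h2]
      apply Finset.sum_eq_zero
      intro k hk
      have := Finset.mem_range.mp hk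
      rw [ext0_colE (by omega), if_neg (by omega)]
  · rw [if_neg h, if_neg (by omega), neg_eq_zero]
    apply Finset.sum_eq_zero
    intro k _
    rw [ext0_colE (by omega), if_neg (by omega)]

theorem Rm_pow_colE {n : ℕ} (k : ℕ) (hk : k < n) :
    ((Rm n : End F (Matrix (Fin n) (Fin n) F)) ^ k) (colE n 0) = colE n k := by
  induction k with
  | zero => simp
  | succ k ih =>
    rw [pow_succ', Module.End.mul_apply, ih (by omega)]
    exact Rm_colE hk

/-- the operator has nilpotency index at least `2 n - 1` -/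
theorem Rm_pow_ne {n : ℕ} (hn : 1 ≤ n) :
    ((Rm n : End F (Matrix (Fin n) (Fin n) F)) ^ (2 * n - 2)) (colE n 0) ≠ 0 := by
  intro h
  have h1 : ((Rm n : End F (Matrix (Fin n) (Fin n) F)) ^ (2 * n - 2)) (colE n 0) =
      ((Rm n : End F (Matrix (Fin n) (Fin n) F)) ^ (n - 1)) (colE n (n - 1)) := by
    rw [show 2 * n - 2 = (n - 1) + (n - 1) by omega, pow_add, Module.End.mul_apply,
      Rm_pow_colE (n - 1) (by omega)]
  rw [h1] at h
  have h2 := bottom_pow (colE n (n - 1) : Matrix (Fin n) (Fin n) F) (n - 1) (by omega)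
  rw [h, ext0_colE (by omega), if_pos (by omega), mul_one] at h2
  have h3 : ext0 (0 : Matrix (Fin n) (Fin n) F) (n - 1) (n - 1 - (n - 1)) = 0 := by
    unfold ext0; split_ifs <;> rfl
  rw [h3] at h2
  exact (pow_ne_zero _ (neg_ne_zero.mpr one_ne_zero)) h2.symm

/-- transfer of the operator to an algebra containing `M_n(F)^+` as a retract -/
theorem transfer [CharZero F] {M : Type*} [Ring M] [Algebra F M] {n : ℕ} (hn : 1 ≤ n) (J : JSub F M)
    (ι : Matrix (Fin n) (Fin n) F →ₗ[F] J.El) (π : J.El →ₗ[F] Matrix (Fin n) (Fin n) F)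
    (h1 : ∀ b, π (ι b) = b)
    (h2 : ∀ b x, π (ι b * x) = (1 / 2 : F) • (b * π x + π x * b))
    (h3 : ∀ b c, ι b * ι c = ι ((1 / 2 : F) • (b * c + c * b))) :
    ∃ R : End F J.El, IsRB R ∧ R ^ (2 * n - 2) ≠ 0 := by
  refine ⟨ι ∘ₗ Rm n ∘ₗ π, ?_, ?_⟩
  · intro x y
    have hc : ∀ u v : J.El, u * v = v * u := fun u v => JSub.ext' (by
      rw [JSub.val_mul, JSub.val_mul, add_comm])
    show ι (Rm n (π x)) * ι (Rm n (π y)) = ι (Rm n (π (ι (Rm n (π x)) * y + x * ι (Rm n (π y)))))
    rw [h3, map_add, h2, hc x, h2, Rm_rb (π x) (π y), Rm_rb (π y) (π x), ← map_add, ← map_smul]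
    congr 2
    module
  · intro h
    have h4 : ∀ (k : ℕ) (b : Matrix (Fin n) (Fin n) F),
        ((ι ∘ₗ Rm n ∘ₗ π : End F J.El) ^ k) (ι b) = ι (((Rm n : End F _) ^ k) b) := by
      intro k
      induction k with
      | zero => intro b; simp
      | succ k ih =>
        intro b
        rw [pow_succ', Module.End.mul_apply, ih, pow_succ', Module.End.mul_apply]
        show ι (Rm n (π (ι _))) = _
        rw [h1]
    have h5 := h4 (2 * n - 2) (colE n 0)
    rw [h, LinearMap.zero_apply] at h5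
    have h6 := congrArg π h5
    rw [map_zero, h1] at h6
    exact Rm_pow_ne hn h6.symm

end Pool.Agent.R696.RBM
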