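import Pool.Agent.R696.RBM.Abs
set_option autoImplicit false
set_option linter.unusedSectionVars false

/-! The nilpotency bound `R ^ (2 n - 1) = 0` for algebras of degree `n`. -/

namespace Pool.Agent.R696.RBM

open Module (End)

variable {F : Type*} [Field F] [CharZero F] {A : Type*} [NonUnitalNonAssocRing A] [Module F A]
variable [IsScalarTower F A A] [SMulCommClass F A A]

theorem chain_step {R g g' : End F A} (h : Dr R g g') (j : ℕ) :
    R ^ (j + 1) * g' * R ^ (j + 1) = (R ^ j * g * R ^ j) * R - R * (R ^ j * g * R ^ j) := by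
  unfold Dr at h
  have h1 : R * g' * R = g * R - R * g := by rw [h]; abel
  calc R ^ (j + 1) * g' * R ^ (j + 1) = R ^ j * (R * g' * R) * R ^ j := by
        rw [pow_succ R j]
        nth_rewrite 2 [← pow_succ]
        rw [pow_succ' R j]
        simp only [mul_assoc]
    _ = R ^ j * (g * R - R * g) * R ^ j := by rw [h1]
    _ = R ^ j * g * (R * R ^ j) - R ^ j * R * g * R ^ j := by noncomm_ring
    _ = R ^ j * g * (R ^ j * R) - (R * R ^ j) * g * R ^ j := by
        have p1 : R * R ^ j = R ^ j * R := by rw [← pow_succ', ← pow_succ]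
        rw [p1]
    _ = _ := by noncomm_ring

theorem pw_big {e a : A} {N : ℕ} (h : pw e a N = 0) {k : ℕ} (hk : N ≤ k) : pw e a k = 0 := by
  induction k, hk using Nat.le_induction with
  | base => exact h
  | succ k _ ih => show a * pw e a k = 0; rw [ih, mul_zero]

theorem L_pw (e a : A) (m i : ℕ) : ((LinearMap.mulLeft F a : End F A) ^ m) (pw e a i) = pw e a (i + m) := by
  induction m with
  | zero => simp
  | succ m ih =>
    rw [pow_succ', Module.End.mul_apply, ih]
    rfl

theorem pw_indep {e a : A} {N : ℕ} (h1 : pw e a (N + 1) = 0) (h0 : pw e a N ≠ 0) (u : ℕ → F)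
    (hu : ∑ k ∈ Finset.range (N + 1), u k • pw e a k = 0) : ∀ k ≤ N, u k = 0 := by
  intro k
  induction k using Nat.strong_induction_on with
  | _ k ih =>
    intro hk
    have h2 := congrArg ((LinearMap.mulLeft F a : End F A) ^ (N - k)) hu
    rw [map_sum, map_zero] at h2
    simp only [map_smul, L_pw] at h2
    rw [Finset.sum_eq_single k] at h2
    · rw [show k + (N - k) = N by omega] at h2
      exact (smul_eq_zero.mp h2).resolve_right h0
    · intro i hi hik
      rw [Finset.mem_range] at hi
      rcases lt_or_gt_of_ne hik with hlt | hgt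
      · rw [ih i hlt (by omega), zero_smul]
      · rw [pw_big h1 (by omega), smul_zero]
    · intro hk'
      exact absurd (Finset.mem_range.mpr (by omega)) hk'

/-- the chain attached to a vanishing multiplication operator -/
theorem zero_chain {e : A} {R : End F A} (hC : CU e) (hR : IsRB R) {N : ℕ}
    (h0 : mm (F := F) e (R e) N = 0) (j : ℕ) (hj : j ≤ N) :
    R ^ j * mm e (R e) (N - j) * R ^ j = 0 := by
  induction j with
  | zero => simp [h0]
  | succ j ih =>
    have ih' := ih (by omega)
    have h1 := Dr_mm (R := R) hC hR (N - (j + 1))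
    rw [show N - (j + 1) + 1 = N - j by omega] at h1
    have h2 := chain_step h1 j
    rw [ih', zero_mul, mul_zero, sub_zero, mul_smul_comm, smul_mul_assoc] at h2
    have hk : (((N - (j + 1) : ℕ) : F) + 1) ≠ 0 := by exact_mod_cast Nat.succ_ne_zero (N - (j + 1))
    exact (smul_eq_zero.mp h2).resolve_left hk

theorem mm_eq_zero {e a : A} {k : ℕ} (h : pw e a k = 0) : mm (F := F) e a k = 0 := by
  ext x
  rw [mm_apply, h, zero_mul]; rfl

theorem pow_two_mul {e : A} {R : End F A} (hC : CU e) (hR : IsRB R) {N : ℕ}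
    (h0 : pw e (R e) N = 0) : R ^ (2 * N) = 0 := by
  have h := zero_chain hC hR (mm_eq_zero h0) N le_rfl
  rw [Nat.sub_self, mm_zero hC, mul_one, ← pow_add] at h
  rw [two_mul]; exact h

/-- the key relation -/
theorem key {e : A} {R : End F A} (hC : CU e) (hR : IsRB R) {N : ℕ}
    (h0 : pw e (R e) (N + 2) = 0) :
    ((N : F) + 2) • (R * hh e (R e) (N + 1) * R) =
      (mm e (R e) 1 - R) * (hh e (R e) (N + 1) * R - R * hh e (R e) (N + 1)) := by
  have h1 := zero_chain hC hR (mm_eq_zero h0) 1 (by omega)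
  rw [pow_one, show N + 2 - 1 = N + 1 by omega] at h1
  have h2 := Dr_hh (R := R) hC hR N
  have h3 := Dr_mm (R := R) hC hR 0
  unfold Dr at h2 h3
  have e1 : hh (F := F) e (R e) (N + 1) = mm e (R e) 1 * hh e (R e) N + mm e (R e) (N + 1) := rfl
  rw [mm_zero hC] at h3
  simp only [Nat.cast_zero, zero_add, one_smul, mul_one] at h3
  -- R l = l R - R R
  have h4 : R * mm e (R e) 1 = mm e (R e) 1 * R - R * R := by rw [h3]; abel
  have h5 : R * hh e (R e) (N + 1) * R = (mm e (R e) 1 - R) * (R * hh e (R e) N * R) := by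
    rw [e1, mul_add, add_mul, h1, add_zero]
    calc R * (mm e (R e) 1 * hh e (R e) N) * R = (R * mm e (R e) 1) * hh e (R e) N * R := by
          simp only [mul_assoc]
      _ = _ := by rw [h4]; noncomm_ring
  have h6 : ((N : F) + 2) • (R * hh e (R e) N * R) =
      hh e (R e) (N + 1) * R - R * hh e (R e) (N + 1) := by
    rw [h2, mul_smul_comm, smul_mul_assoc]; abel
  rw [h5, ← mul_smul_comm, h6]

/-- the shape of the operators occurring in the main argument -/
def Good (R : End F A) (e a : A) (c : A → ℕ → F) (N j : ℕ) (X : End F A) : Prop :=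
  ∃ (α : ℕ → F) (β : F), ∀ x, X x = ∑ k ∈ Finset.range N, (α k * c x k) • pw e a (k + j) +
    (β * c ((R ^ j) x) N) • pw e a N

theorem Good.smul {R : End F A} {e a : A} {c : A → ℕ → F} {N j : ℕ} {X : End F A}
    (h : Good R e a c N j X) (t : F) : Good R e a c N j (t • X) := by
  obtain ⟨α, β, h⟩ := h
  refine ⟨fun k => t * α k, t * β, fun x => ?_⟩
  rw [LinearMap.smul_apply, h, smul_add, Finset.smul_sum]
  simp only [smul_smul, mul_assoc]

theorem Good.step {e : A} {R : End F A} {c : A → ℕ → F} {M j : ℕ} {X : End F A}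
    (hC : CU e) (hR : IsRB R) (h0 : pw e (R e) (M + 2) = 0)
    (hc : ∀ x, c (R x) 0 = 0 ∧ ∀ k < M, c (R x) (k + 1) = -(c x k) / ((M : F) + 1 - k))
    (h : Good R e (R e) c (M + 1) j X) : Good R e (R e) c (M + 1) (j + 1) (X * R - R * X) := by
  obtain ⟨α, β, h⟩ := h
  refine ⟨fun k => (if k < M then α (k + 1) * (-1 / ((M : F) + 1 - k)) else 0) -
    α k * (1 / (((k + j : ℕ) : F) + 1)), β, fun x => ?_⟩
  rw [LinearMap.sub_apply, Module.End.mul_apply, Module.End.mul_apply, h (R x), h x, map_add, map_sum,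
    map_smul, R_pw hC hR (M + 1), h0, smul_zero, smul_zero, add_zero]
  have e1 : (R ^ j) (R x) = (R ^ (j + 1)) x := by rw [pow_succ]; rfl
  rw [e1, add_sub_right_comm]
  congr 1
  simp only [map_smul, R_pw hC hR]
  rw [Finset.sum_range_succ', (hc x).1, mul_zero, zero_smul, add_zero]
  have e2 : ∀ k ∈ Finset.range M, (α (k + 1) * c (R x) (k + 1)) • pw e (R e) (k + 1 + j) =
      ((if k < M then α (k + 1) * (-1 / ((M : F) + 1 - k)) else 0) * c x k) •
        pw e (R e) (k + (j + 1)) := by
    intro k hk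
    have hk' := Finset.mem_range.mp hk
    rw [if_pos hk', (hc x).2 k hk', show k + 1 + j = k + (j + 1) by omega]
    congr 1
    ring
  rw [Finset.sum_congr rfl e2]
  have e3 : ∑ k ∈ Finset.range M, ((if k < M then α (k + 1) * (-1 / ((M : F) + 1 - k)) else 0) * c x k) •
        pw e (R e) (k + (j + 1)) = ∑ k ∈ Finset.range (M + 1),
        ((if k < M then α (k + 1) * (-1 / ((M : F) + 1 - k)) else 0) * c x k) •
        pw e (R e) (k + (j + 1)) := by
    rw [Finset.sum_range_succ]
    simp
  rw [e3, ← Finset.sum_sub_distrib]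
  apply Finset.sum_congr rfl
  intro k _
  rw [show k + j + 1 = k + (j + 1) by omega, smul_smul, ← sub_smul]
  congr 1
  ring

/-- **Main abstract theorem.** -/
theorem pow_eq_zero_of_regular {e : A} {R : End F A} (hC : CU e) (hR : IsRB R) {M : ℕ}
    (h0 : pw e (R e) (M + 2) = 0) (h1 : pw e (R e) (M + 1) ≠ 0)
    (hf : ∀ x, ∃ c : ℕ → F, hh (F := F) e (R e) (M + 1) x =
      ∑ k ∈ Finset.range (M + 2), c k • pw e (R e) k) :
    R ^ (2 * (M + 1) + 1) = 0 := by
  choose c hc using hf
  -- relation between the coefficients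
  have hrel : ∀ x, c (R x) 0 = 0 ∧ ∀ k < M, c (R x) (k + 1) = -(c x k) / ((M : F) + 1 - k) := by
    intro x
    have hk := congrArg (fun g : End F A => g x) (key hC hR h0)
    simp only [LinearMap.smul_apply, Module.End.mul_apply, LinearMap.sub_apply, hc] at hk
    rw [map_sub, map_sub] at hk
    have hf1 : ∀ (w : ℕ → F), R (∑ k ∈ Finset.range (M + 2), w k • pw e (R e) k) =
        ∑ k ∈ Finset.range (M + 1), (w k / ((k : F) + 1)) • pw e (R e) (k + 1) := by
      intro w
      rw [map_sum, Finset.sum_range_succ]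
      simp only [map_smul, R_pw hC hR, h0, smul_zero, add_zero, smul_smul]
      apply Finset.sum_congr rfl
      intro k _
      congr 1; ring
    have hf2 : ∀ (w : ℕ → F), mm (F := F) e (R e) 1 (∑ k ∈ Finset.range (M + 2), w k • pw e (R e) k) =
        ∑ k ∈ Finset.range (M + 1), w k • pw e (R e) (k + 1) := by
      intro w
      rw [map_sum, Finset.sum_range_succ]
      simp only [map_smul, mm_apply, pw_one hC]
      have : R e * pw e (R e) (M + 1) = 0 := h0
      rw [this, smul_zero, add_zero]
      rfl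
    rw [hf1, hf1, hf2] at hk
    set u := c (R x) with hu
    set w := c x with hw
    have hf3 : mm (F := F) e (R e) 1 (∑ k ∈ Finset.range (M + 1), (w k / ((k : F) + 1)) • pw e (R e) (k + 1)) -
        R (∑ k ∈ Finset.range (M + 1), (w k / ((k : F) + 1)) • pw e (R e) (k + 1)) =
        ∑ k ∈ Finset.range M, (w k / ((k : F) + 2)) • pw e (R e) (k + 2) := by
      rw [map_sum, map_sum, ← Finset.sum_sub_distrib, Finset.sum_range_succ]
      simp only [map_smul, mm_apply, pw_one hC, R_pw hC hR]
      have e4 : R e * pw e (R e) (M + 1) = 0 := h0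
      have e5 : pw e (R e) (M + 1 + 1) = 0 := h0
      rw [e4, e5, smul_zero, smul_zero, smul_zero, sub_zero, add_zero]
      apply Finset.sum_congr rfl
      intro k _
      have e6 : R e * pw e (R e) (k + 1) = pw e (R e) (k + 2) := rfl
      rw [e6, show k + 1 + 1 = k + 2 from rfl, smul_smul, ← sub_smul]
      congr 1
      have h1' : ((k : F) + 1) ≠ 0 := by exact_mod_cast Nat.succ_ne_zero k
      have h2' : ((k : F) + 2) ≠ 0 := by exact_mod_cast (by omega : k + 2 ≠ 0)
      rw [show (((k + 1 : ℕ) : F) + 1) = (k : F) + 2 by push_cast; ring]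
      field_simp
      ring
    have hsum : ∑ k ∈ Finset.range (M + 2), (fun k : ℕ => (match k with
        | 0 => (0 : F)
        | 1 => ((M : F) + 2) * u 0
        | (k + 2) => ((M : F) + 2) * (u (k + 1) / ((k : F) + 2)) - u (k + 1) + u (k + 1) / ((k : F) + 2) +
            w k / ((k : F) + 2))) k • pw e (R e) k = 0 := by
      rw [Finset.sum_range_succ', Finset.sum_range_succ']
      have e7 : ∑ k ∈ Finset.range (M + 1), (u k / ((k : F) + 1)) • pw e (R e) (k + 1) =
          ∑ k ∈ Finset.range M, (u (k + 1) / ((k : F) + 2)) • pw e (R e) (k + 2) + u 0 • pw e (R e) 1 := by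
        rw [Finset.sum_range_succ']
        congr 1
        · apply Finset.sum_congr rfl
          intro k _
          rw [show (((k + 1 : ℕ) : F) + 1) = (k : F) + 2 by push_cast; ring]
        · simp
      have e8 : ∑ k ∈ Finset.range (M + 1), u k • pw e (R e) (k + 1) =
          ∑ k ∈ Finset.range M, u (k + 1) • pw e (R e) (k + 2) + u 0 • pw e (R e) 1 := by
        rw [Finset.sum_range_succ']
      rw [e7, e8] at hk
      have e9 : ∑ k ∈ Finset.range M, (((M : F) + 2) * (u (k + 1) / ((k : F) + 2)) - u (k + 1) +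
          u (k + 1) / ((k : F) + 2) + w k / ((k : F) + 2)) • pw e (R e) (k + 2) =
          ((M : F) + 2) • ∑ k ∈ Finset.range M, (u (k + 1) / ((k : F) + 2)) • pw e (R e) (k + 2)
          - ∑ k ∈ Finset.range M, u (k + 1) • pw e (R e) (k + 2)
          + ∑ k ∈ Finset.range M, (u (k + 1) / ((k : F) + 2)) • pw e (R e) (k + 2)
          + ∑ k ∈ Finset.range M, (w k / ((k : F) + 2)) • pw e (R e) (k + 2) := by
        rw [Finset.smul_sum, ← Finset.sum_sub_distrib, ← Finset.sum_add_distrib, ← Finset.sum_add_distrib]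
        apply Finset.sum_congr rfl
        intro k _
        rw [smul_smul]
        module
      have hk2 : ((M : F) + 2) • (∑ k ∈ Finset.range M, (u (k + 1) / ((k : F) + 2)) • pw e (R e) (k + 2) +
          u 0 • pw e (R e) 1) = (∑ k ∈ Finset.range M, u (k + 1) • pw e (R e) (k + 2) + u 0 • pw e (R e) 1)
          - (∑ k ∈ Finset.range M, (u (k + 1) / ((k : F) + 2)) • pw e (R e) (k + 2) + u 0 • pw e (R e) 1)
          - ∑ k ∈ Finset.range M, (w k / ((k : F) + 2)) • pw e (R e) (k + 2) := by
        rw [← hf3]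
        linear_combination (norm := module) hk
      show ∑ k ∈ Finset.range M, (((M : F) + 2) * (u (k + 1) / ((k : F) + 2)) - u (k + 1) +
          u (k + 1) / ((k : F) + 2) + w k / ((k : F) + 2)) • pw e (R e) (k + 2) +
          (((M : F) + 2) * u 0) • pw e (R e) 1 + (0 : F) • pw e (R e) 0 = 0
      rw [e9]
      linear_combination (norm := module) hk2
    have hz := pw_indep h0 h1 _ hsum
    constructor
    · have := hz 1 (by omega)
      simp only at this
      have h2' : ((M : F) + 2) ≠ 0 := by exact_mod_cast (by omega : M + 2 ≠ 0)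
      exact (mul_eq_zero.mp this).resolve_left h2'
    · intro k hkM
      have := hz (k + 2) (by omega)
      simp only at this
      have h2' : ((k : F) + 2) ≠ 0 := by exact_mod_cast (by omega : k + 2 ≠ 0)
      have h3' : ((M : F) + 1 - k) ≠ 0 := by
        have : ((M + 1 - k : ℕ) : F) ≠ 0 := by exact_mod_cast (by omega : M + 1 - k ≠ 0)
        rw [Nat.cast_sub (by omega)] at this
        push_cast at this
        exact this
      rw [eq_div_iff h3']
      field_simp at this
      linear_combination this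
  -- the chain
  have hgood : ∀ j ≤ M + 1, Good R e (R e) c (M + 1) j (R ^ j * hh e (R e) (M + 1 - j) * R ^ j) := by
    intro j
    induction j with
    | zero =>
      intro _
      refine ⟨fun _ => 1, 1, fun x => ?_⟩
      simp only [pow_zero, one_mul, mul_one, Nat.sub_zero, add_zero]
      rw [hc x, Finset.sum_range_succ]
      rfl
    | succ j ih =>
      intro hj
      have ih' := (ih (by omega)).step hC hR h0 hrel
      have h2 := Dr_hh (R := R) hC hR (M + 1 - (j + 1))
      rw [show M + 1 - (j + 1) + 1 = M + 1 - j by omega] at h2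
      rw [← chain_step h2 j, mul_smul_comm, smul_mul_assoc] at ih'
      have h3 := ih'.smul (((M + 1 - (j + 1) : ℕ) : F) + 2)⁻¹
      have h4 : (((M + 1 - (j + 1) : ℕ) : F) + 2) ≠ 0 := by
        exact_mod_cast (by omega : (M + 1 - (j + 1)) + 2 ≠ 0)
      rw [smul_smul, inv_mul_cancel₀ h4, one_smul] at h3
      exact h3
  obtain ⟨α, β, h⟩ := hgood (M + 1) le_rfl
  have h5 : R ^ (M + 1) * hh e (R e) (M + 1 - (M + 1)) * R ^ (M + 1) = R ^ (2 * (M + 1)) := by
    rw [Nat.sub_self]
    show R ^ (M + 1) * 1 * R ^ (M + 1) = _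
    rw [mul_one, ← pow_add, two_mul]
  rw [h5] at h
  rw [pow_succ']
  ext x
  rw [Module.End.mul_apply, h x, map_add, map_sum, map_smul, R_pw hC hR, h0, smul_zero, smul_zero,
    add_zero]
  simp only [map_smul, R_pw hC hR]
  rw [LinearMap.zero_apply]
  apply Finset.sum_eq_zero
  intro k _
  rw [pw_big h0 (by omega), smul_zero, smul_zero]

/-- the bound in degree `n` -/
theorem pow_bound {e : A} {R : End F A} (hC : CU e) (hR : IsRB R) {n : ℕ} (hn : 2 ≤ n)
    (h0 : pw e (R e) n = 0)
    (hf : pw e (R e) (n - 1) ≠ 0 → ∀ x, ∃ c : ℕ → F, hh (F := F) e (R e) (n - 1) x =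
      ∑ k ∈ Finset.range n, c k • pw e (R e) k) :
    R ^ (2 * n - 1) = 0 := by
  obtain ⟨M, rfl⟩ : ∃ M, n = M + 2 := ⟨n - 2, by omega⟩
  rw [show M + 2 - 1 = M + 1 by omega] at hf
  rw [show 2 * (M + 2) - 1 = 2 * (M + 1) + 1 by omega]
  by_cases h1 : pw e (R e) (M + 1) = 0
  · rw [pow_succ, pow_two_mul hC hR h1, zero_mul]
  · exact pow_eq_zero_of_regular hC hR h0 h1 (hf h1)

end Pool.Agent.R696.RBM
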