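import Pool.Agent.R696.RBM.Spec
import Pool.Agent.R696.RBM.Lin
set_option autoImplicit false
set_option linter.unusedSectionVars false

/-! The three families of matrix Jordan algebras and the upper bounds. -/

namespace Pool.Agent.R696.RBM

open Module (End finrank)
open Matrix

variable (F : Type*) [Field F]

/-- `M_n(F)^+` -/
def MPlus (n : ℕ) : JSub F (Matrix (Fin n) (Fin n) F) where
  S := ⊤
  closed _ _ _ _ := trivial

/-- `H_n(F)`, the symmetric matrices -/
def HSym (n : ℕ) : JSub F (Matrix (Fin n) (Fin n) F) where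
  S := { carrier := {x | xᵀ = x}
         add_mem' := fun {a b} ha hb => by
           show (a + b)ᵀ = a + b
           rw [transpose_add, show aᵀ = a from ha, show bᵀ = b from hb]
         zero_mem' := transpose_zero
         smul_mem' := fun c a ha => by
           show (c • a)ᵀ = c • a
           rw [transpose_smul, show aᵀ = a from ha] }
  closed x hx y hy := by
    have h1 : xᵀ = x := hx
    have h2 : yᵀ = y := hy
    show ((1 / 2 : F) • (x * y + y * x))ᵀ = (1 / 2 : F) • (x * y + y * x)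
    rw [transpose_smul, transpose_add, transpose_mul, transpose_mul, h1, h2, add_comm]

/-- `H_n(Q)`, the symmetric elements of `M_{2n}(F)` under the symplectic involution
`X ↦ J⁻¹ Xᵀ J` -/
def HSymp (n : ℕ) : JSub F (Matrix (Fin n ⊕ Fin n) (Fin n ⊕ Fin n) F) where
  S := { carrier := {x | xᵀ * J (Fin n) F = J (Fin n) F * x}
         add_mem' := fun {a b} ha hb => by
           show (a + b)ᵀ * J (Fin n) F = J (Fin n) F * (a + b)
           rw [transpose_add, add_mul, mul_add, show aᵀ * J (Fin n) F = J (Fin n) F * a from ha,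
             show bᵀ * J (Fin n) F = J (Fin n) F * b from hb]
         zero_mem' := by
           show (0 : Matrix (Fin n ⊕ Fin n) (Fin n ⊕ Fin n) F)ᵀ * J (Fin n) F = J (Fin n) F * 0
           simp
         smul_mem' := fun c a ha => by
           show (c • a)ᵀ * J (Fin n) F = J (Fin n) F * (c • a)
           rw [transpose_smul, smul_mul_assoc, mul_smul_comm,
             show aᵀ * J (Fin n) F = J (Fin n) F * a from ha] }
  closed x hx y hy := by
    have h1 : xᵀ * J (Fin n) F = J (Fin n) F * x := hx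
    have h2 : yᵀ * J (Fin n) F = J (Fin n) F * y := hy
    show ((1 / 2 : F) • (x * y + y * x))ᵀ * J (Fin n) F = J (Fin n) F * ((1 / 2 : F) • (x * y + y * x))
    have e1 : (yᵀ * xᵀ) * J (Fin n) F = J (Fin n) F * (y * x) := by
      rw [mul_assoc, h1, ← mul_assoc, h2, mul_assoc]
    have e2 : (xᵀ * yᵀ) * J (Fin n) F = J (Fin n) F * (x * y) := by
      rw [mul_assoc, h2, ← mul_assoc, h1, mul_assoc]
    rw [transpose_smul, transpose_add, transpose_mul, transpose_mul, smul_mul_assoc, mul_smul_comm,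
      add_mul, mul_add, e1, e2, add_comm]

variable {F}

theorem MPlus_one (n : ℕ) : (1 : Matrix (Fin n) (Fin n) F) ∈ (MPlus F n).S := trivial
theorem HSym_one (n : ℕ) : (1 : Matrix (Fin n) (Fin n) F) ∈ (HSym F n).S := transpose_one
theorem HSymp_one (n : ℕ) : (1 : Matrix (Fin n ⊕ Fin n) (Fin n ⊕ Fin n) F) ∈ (HSymp F n).S := by
  show (1 : Matrix (Fin n ⊕ Fin n) (Fin n ⊕ Fin n) F)ᵀ * J (Fin n) F = J (Fin n) F * 1
  simp

theorem mat_nil {n : ℕ} {a : Matrix (Fin n) (Fin n) F} (h : IsNilpotent a) : a ^ n = 0 := by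
  set φ := Matrix.toLinAlgEquiv' (R := F) (n := Fin n)
  have h1 : IsNilpotent (φ a) := h.map φ
  have h2 := h1.charpoly_eq_X_pow_finrank
  have h3 := LinearMap.aeval_self_charpoly (φ a)
  rw [h2] at h3
  simp only [map_pow, Polynomial.aeval_X, Module.finrank_fintype_fun_eq_card, Fintype.card_fin] at h3
  rw [← map_pow] at h3
  exact (map_eq_zero_iff φ φ.injective).mp h3

theorem mat_centr {n : ℕ} (hn : 1 ≤ n) {a : Matrix (Fin n) (Fin n) F} (h1 : a ^ n = 0)
    (h0 : a ^ (n - 1) ≠ 0) {z : Matrix (Fin n) (Fin n) F} (hz : a * z = z * a) :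
    ∃ c : ℕ → F, z = ∑ k ∈ Finset.range n, c k • a ^ k := by
  obtain ⟨N, rfl⟩ : ∃ N, n = N + 1 := ⟨n - 1, by omega⟩
  rw [Nat.add_sub_cancel] at h0
  set φ := Matrix.toLinAlgEquiv' (R := F) (n := Fin (N + 1))
  obtain ⟨c, hc⟩ := centr_regular (V := Fin (N + 1) → F) (a := φ a) (z := φ z) (N := N)
    (by simp) (by rw [← map_pow, h1, map_zero])
    (by rw [← map_pow]; intro h; exact h0 ((map_eq_zero_iff φ φ.injective).mp h))
    (by rw [← map_mul, ← map_mul, hz])
  refine ⟨c, φ.injective ?_⟩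
  rw [hc, map_sum]
  apply Finset.sum_congr rfl
  intro k _
  rw [map_smul, map_pow]

variable [CharZero F]

theorem MPlus_bound {n : ℕ} (hn : 2 ≤ n) {R : End F (MPlus F n).El} (hR : IsRB R) :
    R ^ (2 * n - 1) = 0 :=
  JSub.bound (MPlus_one n) hn (fun _ _ h => mat_nil h)
    (fun _ _ h1 h0 _ _ hz => mat_centr (by omega) h1 h0 hz) hR

theorem HSym_bound {n : ℕ} (hn : 2 ≤ n) {R : End F (HSym F n).El} (hR : IsRB R) :
    R ^ (2 * n - 1) = 0 :=
  JSub.bound (HSym_one n) hn (fun _ _ h => mat_nil h)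
    (fun _ _ h1 h0 _ _ hz => mat_centr (by omega) h1 h0 hz) hR

theorem symp_SA {n : ℕ} {x : Matrix (Fin n ⊕ Fin n) (Fin n ⊕ Fin n) F} (hx : x ∈ (HSymp F n).S) :
    SA (Matrix.toBilin' (J (Fin n) F)) (Matrix.toLinAlgEquiv' x) := by
  intro u v
  have h : xᵀ * J (Fin n) F = J (Fin n) F * x := hx
  rw [Matrix.toBilin'_apply', Matrix.toBilin'_apply', Matrix.toLinAlgEquiv'_apply,
    Matrix.toLinAlgEquiv'_apply, Matrix.mulVec_mulVec, ← h, ← Matrix.mulVec_mulVec,
    Matrix.dotProduct_mulVec, Matrix.dotProduct_mulVec, Matrix.dotProduct_mulVec,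
    Matrix.vecMul_transpose]

theorem symp_skew {n : ℕ} (x y : Fin n ⊕ Fin n → F) :
    Matrix.toBilin' (J (Fin n) F) x y = -Matrix.toBilin' (J (Fin n) F) y x := by
  rw [Matrix.toBilin'_apply', Matrix.toBilin'_apply', Matrix.dotProduct_mulVec,
    ← Matrix.mulVec_transpose, J_transpose, Matrix.neg_mulVec, neg_dotProduct, dotProduct_comm]

theorem symp_nd (n : ℕ) : (Matrix.toBilin' (J (Fin n) F)).Nondegenerate := by
  apply LinearMap.BilinForm.nondegenerate_toBilin'_of_det_ne_zero'
  exact (Matrix.isUnit_det_J (Fin n) F).ne_zero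

theorem HSymp_bound {n : ℕ} (hn : 2 ≤ n) {R : End F (HSymp F n).El} (hR : IsRB R) :
    R ^ (2 * n - 1) = 0 := by
  set φ := Matrix.toLinAlgEquiv' (R := F) (n := Fin n ⊕ Fin n)
  refine JSub.bound (HSymp_one n) hn ?_ ?_ hR
  · intro a ha h
    have h1 : IsNilpotent (φ a) := h.map φ
    have h2 := nil_index symp_skew (symp_nd n) (n := n)
      (by simp; ring) (symp_SA ha) h1
    rw [← map_pow] at h2
    exact (map_eq_zero_iff φ φ.injective).mp h2
  · intro a ha h1 h0 z hz hcom
    obtain ⟨N, rfl⟩ : ∃ N, n = N + 1 := ⟨n - 1, by omega⟩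
    rw [Nat.add_sub_cancel] at h0
    obtain ⟨c, hc⟩ := centr_symplectic (a := φ a) (z := φ z) (N := N) symp_skew (symp_nd (N + 1))
      (by simp; ring) (symp_SA ha) (by rw [← map_pow, h1, map_zero])
      (by rw [← map_pow]; intro h; exact h0 ((map_eq_zero_iff φ φ.injective).mp h))
      (symp_SA hz) (by rw [← map_mul, ← map_mul, hcom])
    refine ⟨c, φ.injective ?_⟩
    rw [hc, map_sum]
    apply Finset.sum_congr rfl
    intro k _
    rw [map_smul, map_pow]

end Pool.Agent.R696.RBM
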