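import Pool.Agent.R696.RBM.Abs
set_option autoImplicit false
set_option linter.unusedSectionVars false

/-! In a finite dimensional algebra the value `R 1` is nilpotent. -/

namespace Pool.Agent.R696.RBM

variable {F : Type*} [Field F] {A : Type*} [NonUnitalNonAssocRing A] [Module F A]

theorem extract (v : ℕ → A) (s : Finset ℕ) (g : ℕ → F) (h : ∑ k ∈ s, g k • v k = 0)
    (hne : ∃ i ∈ s, g i ≠ 0) : ∃ i ∈ s, ∃ u : ℕ → F, v i = ∑ k ∈ Finset.range i, u k • v k := by
  classical
  set t := s.filter (fun i => g i ≠ 0) with ht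
  have htne : t.Nonempty := by
    obtain ⟨i, hi, hg⟩ := hne
    exact ⟨i, Finset.mem_filter.mpr ⟨hi, hg⟩⟩
  set i := t.max' htne with hi
  have hit : i ∈ t := Finset.max'_mem _ _
  have his := (Finset.mem_filter.mp hit).1
  have hgi := (Finset.mem_filter.mp hit).2
  have h1 : ∑ k ∈ t, g k • v k = 0 := by
    rw [← h]
    apply Finset.sum_subset (Finset.filter_subset _ _)
    intro k hk hkt
    have : g k = 0 := by
      by_contra hg
      exact hkt (Finset.mem_filter.mpr ⟨hk, hg⟩)
    rw [this, zero_smul]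
  rw [← Finset.add_sum_erase t _ hit] at h1
  refine ⟨i, his, fun k => if k ∈ t then -(g k) / g i else 0, ?_⟩
  have h2 : ∑ k ∈ Finset.range i, (if k ∈ t then -(g k) / g i else 0) • v k =
      ∑ k ∈ t.erase i, (-(g k) / g i) • v k := by
    symm
    rw [← Finset.sum_filter_add_sum_filter_not (Finset.range i) (fun k => k ∈ t)]
    rw [Finset.sum_eq_zero (s := (Finset.range i).filter (fun k => ¬ k ∈ t)), add_zero]
    · apply Finset.sum_congr
      · ext k
        simp only [Finset.mem_erase, Finset.mem_filter, Finset.mem_range]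
        constructor
        · rintro ⟨h3, h4⟩
          exact ⟨lt_of_le_of_ne (Finset.le_max' t k h4) h3, h4⟩
        · rintro ⟨h3, h4⟩
          exact ⟨h3.ne, h4⟩
      · intro k hk
        rw [if_pos (Finset.mem_filter.mp hk).2]
    · intro k hk
      rw [if_neg (Finset.mem_filter.mp hk).2, zero_smul]
  rw [h2]
  have h3 : g i • v i = - ∑ k ∈ t.erase i, g k • v k := eq_neg_of_add_eq_zero_left h1
  have h4 : v i = (g i)⁻¹ • (g i • v i) := by rw [smul_smul, inv_mul_cancel₀ hgi, one_smul]
  rw [h4, h3, smul_neg, Finset.smul_sum, ← Finset.sum_neg_distrib]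
  apply Finset.sum_congr rfl
  intro k _
  rw [smul_smul, ← neg_smul]
  congr 1
  ring

theorem exists_rel [Module.Finite F A] (v : ℕ → A) :
    ∃ d : ℕ, ∃ u : ℕ → F, v d = ∑ k ∈ Finset.range d, u k • v k := by
  by_contra hcon
  have hli : LinearIndependent F v := by
    rw [linearIndependent_iff']
    intro s g hg i hi
    by_contra hne
    obtain ⟨j, _, hj⟩ := extract v s g hg ⟨i, hi, hne⟩
    exact hcon ⟨j, hj⟩
  have := hli.finite
  exact not_finite ℕ

variable [IsScalarTower F A A] [SMulCommClass F A A] [CharZero F]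

theorem nilp [Module.Finite F A] {e : A} {R : A →ₗ[F] A} (hC : CU e) (hR : IsRB R) :
    ∃ d, pw e (R e) d = 0 := by
  classical
  have hex := exists_rel (F := F) (pw e (R e))
  set d := Nat.find hex with hd
  obtain ⟨u, hu⟩ := Nat.find_spec hex
  rw [← hd] at hu
  have hmin : ∀ i < d, ¬ ∃ u : ℕ → F, pw e (R e) i = ∑ k ∈ Finset.range i, u k • pw e (R e) k :=
    fun i hi => Nat.find_min hex hi
  have hind : ∀ g : ℕ → F, ∑ k ∈ Finset.range d, g k • pw e (R e) k = 0 → ∀ k < d, g k = 0 := by
    intro g hg k hk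
    by_contra hne
    obtain ⟨i, hi, hi'⟩ := extract _ _ g hg ⟨k, Finset.mem_range.mpr hk, hne⟩
    exact hmin i (Finset.mem_range.mp hi) hi'
  refine ⟨d, ?_⟩
  rcases Nat.eq_zero_or_pos d with h0 | hpos
  · rw [hu, h0]; simp
  obtain ⟨D, hD⟩ : ∃ D, d = D + 1 := ⟨d - 1, by omega⟩
  -- apply the multiplication and R
  have hl : pw e (R e) (d + 1) = ∑ k ∈ Finset.range d, u k • pw e (R e) (k + 1) := by
    show R e * pw e (R e) d = _
    rw [hu, Finset.mul_sum]
    apply Finset.sum_congr rfl
    intro k _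
    rw [mul_smul_comm]; rfl
  have hr : (1 / ((d : F) + 1)) • pw e (R e) (d + 1) =
      ∑ k ∈ Finset.range d, (u k * (1 / ((k : F) + 1))) • pw e (R e) (k + 1) := by
    rw [← R_pw hC hR d, hu, map_sum]
    apply Finset.sum_congr rfl
    intro k _
    rw [map_smul, R_pw hC hR, smul_smul]
  have hdd : ((d : F) + 1) ≠ 0 := by exact_mod_cast Nat.succ_ne_zero d
  have h1 : ∑ k ∈ Finset.range d, (u k * (((k : F) - d) / ((k : F) + 1))) • pw e (R e) (k + 1) = 0 := by
    have h2 : ∑ k ∈ Finset.range d, u k • pw e (R e) (k + 1) -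
        ((d : F) + 1) • ∑ k ∈ Finset.range d, (u k * (1 / ((k : F) + 1))) • pw e (R e) (k + 1) = 0 := by
      rw [← hl, ← hr, smul_smul, mul_one_div_cancel hdd, one_smul, sub_self]
    rw [Finset.smul_sum, ← Finset.sum_sub_distrib] at h2
    rw [← h2]
    apply Finset.sum_congr rfl
    intro k _
    rw [smul_smul, ← sub_smul]
    congr 1
    have hk : ((k : F) + 1) ≠ 0 := by exact_mod_cast Nat.succ_ne_zero k
    field_simp
    ring
  -- expand the top term
  have hdF : (d : F) = (D : F) + 1 := by rw [hD]; push_cast; ring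
  have hD1 : ((D : F) + 1) ≠ 0 := by exact_mod_cast Nat.succ_ne_zero D
  have h3 : ∑ k ∈ Finset.range d, (fun k : ℕ => (match k with
      | 0 => -(u D / ((D : F) + 1)) * u 0
      | (k + 1) => u k * (((k : F) - d) / ((k : F) + 1)) - (u D / ((D : F) + 1)) * u (k + 1))) k •
      pw e (R e) k = 0 := by
    rw [hD] at h1 hu ⊢
    rw [Finset.sum_range_succ, hu] at h1
    rw [Finset.sum_range_succ']
    have h4 : ∑ k ∈ Finset.range (D + 1), u k • pw e (R e) k =
        ∑ k ∈ Finset.range D, u (k + 1) • pw e (R e) (k + 1) + u 0 • pw e (R e) 0 := by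
      rw [Finset.sum_range_succ']
    rw [h4] at h1
    have h5 : ∑ k ∈ Finset.range D, (u k * (((k : F) - ((D + 1 : ℕ) : F)) / ((k : F) + 1)) -
        (u D / ((D : F) + 1)) * u (k + 1)) • pw e (R e) (k + 1) =
        ∑ k ∈ Finset.range D, (u k * (((k : F) - ((D + 1 : ℕ) : F)) / ((k : F) + 1))) • pw e (R e) (k + 1)
        - (u D / ((D : F) + 1)) • ∑ k ∈ Finset.range D, u (k + 1) • pw e (R e) (k + 1) := by
      rw [Finset.smul_sum, ← Finset.sum_sub_distrib]
      apply Finset.sum_congr rfl
      intro k _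
      rw [smul_smul, ← sub_smul]
    show ∑ k ∈ Finset.range D, (u k * (((k : F) - ((D + 1 : ℕ) : F)) / ((k : F) + 1)) -
        (u D / ((D : F) + 1)) * u (k + 1)) • pw e (R e) (k + 1) +
        (-(u D / ((D : F) + 1)) * u 0) • pw e (R e) 0 = 0
    rw [h5]
    have h6 : u D * (((D : F) - ((D + 1 : ℕ) : F)) / ((D : F) + 1)) = -(u D / ((D : F) + 1)) := by
      push_cast; ring
    rw [h6] at h1
    linear_combination (norm := module) h1
  have hz := hind _ h3
  have hz0 := hz 0 hpos
  simp only at hz0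
  have hzs : ∀ k, k + 1 < d → u k * (((k : F) - d) / ((k : F) + 1)) - (u D / ((D : F) + 1)) * u (k + 1) = 0 :=
    fun k hk => hz (k + 1) hk
  have huD : u D = 0 := by
    by_contra hne
    have hq : u D / ((D : F) + 1) ≠ 0 := div_ne_zero hne hD1
    have hall : ∀ k < d, u k = 0 := by
      intro k
      induction k with
      | zero =>
        intro _
        exact (mul_eq_zero.mp hz0).resolve_left (neg_ne_zero.mpr hq)
      | succ k ih =>
        intro hk
        have := hzs k hk
        rw [ih (by omega), zero_mul, zero_sub, neg_eq_zero] at this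
        exact (mul_eq_zero.mp this).resolve_left hq
    exact hne (hall D (by omega))
  rw [hu, hD, Finset.sum_range_succ, huD, zero_smul, add_zero]
  apply Finset.sum_eq_zero
  intro k hk
  have hk' := Finset.mem_range.mp hk
  have := hzs k (by omega)
  rw [huD, zero_div, zero_mul, sub_zero] at this
  have hk1 : ((k : F) + 1) ≠ 0 := by exact_mod_cast Nat.succ_ne_zero k
  have hkd : ((k : F) - d) ≠ 0 := by
    rw [sub_ne_zero]
    exact_mod_cast (by omega : k ≠ d)
  rw [(mul_eq_zero.mp this).resolve_right (div_ne_zero hkd hk1), zero_smul]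

end Pool.Agent.R696.RBM
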