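import Pool.Agent.R696.RBM.Main
import Pool.Agent.R696.RBM.Nil
set_option autoImplicit false
set_option linter.unusedSectionVars false

/-! Special Jordan algebras as subspaces of an associative algebra. -/

namespace Pool.Agent.R696.RBM

open Module (End)

/-- A subspace of an associative algebra closed under the Jordan product `(x y + y x) / 2`. -/
structure JSub (F M : Type*) [Field F] [Ring M] [Algebra F M] where
  /-- the subspace -/
  S : Submodule F M
  closed : ∀ x ∈ S, ∀ y ∈ S, (1 / 2 : F) • (x * y + y * x) ∈ S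

variable {F M : Type*} [Field F] [Ring M] [Algebra F M]

/-- The type of elements of a special Jordan algebra. -/
def JSub.El (J : JSub F M) : Type _ := J.S

instance (J : JSub F M) : AddCommGroup J.El := inferInstanceAs (AddCommGroup J.S)
instance (J : JSub F M) : Module F J.El := inferInstanceAs (Module F J.S)
instance (J : JSub F M) [Module.Finite F M] : Module.Finite F J.El :=
  inferInstanceAs (Module.Finite F J.S)

/-- the inclusion -/
def JSub.val {J : JSub F M} (x : J.El) : M := Subtype.val (p := fun m => m ∈ J.S) x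

theorem JSub.val_mem {J : JSub F M} (x : J.El) : J.val x ∈ J.S := x.2

/-- constructor -/
def JSub.mk' (J : JSub F M) (m : M) (h : m ∈ J.S) : J.El := ⟨m, h⟩

@[simp] theorem JSub.val_mk' (J : JSub F M) (m : M) (h : m ∈ J.S) : J.val (J.mk' m h) = m := rfl

theorem JSub.ext' {J : JSub F M} {x y : J.El} (h : J.val x = J.val y) : x = y := Subtype.ext h

/-- The Jordan product. -/
instance (J : JSub F M) : Mul J.El :=
  ⟨fun x y => J.mk' ((1 / 2 : F) • (J.val x * J.val y + J.val y * J.val x)) (J.closed _ x.2 _ y.2)⟩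

@[simp] theorem JSub.val_add {J : JSub F M} (x y : J.El) : J.val (x + y) = J.val x + J.val y := rfl
@[simp] theorem JSub.val_zero {J : JSub F M} : J.val (0 : J.El) = 0 := rfl
@[simp] theorem JSub.val_smul {J : JSub F M} (c : F) (x : J.El) : J.val (c • x) = c • J.val x := rfl
theorem JSub.val_mul {J : JSub F M} (x y : J.El) :
    J.val (x * y) = (1 / 2 : F) • (J.val x * J.val y + J.val y * J.val x) := rfl

instance (J : JSub F M) : NonUnitalNonAssocRing J.El where
  left_distrib a b c := JSub.ext' (by
    rw [JSub.val_add, JSub.val_mul, JSub.val_mul, JSub.val_mul, JSub.val_add]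
    rw [mul_add, add_mul]; module)
  right_distrib a b c := JSub.ext' (by
    rw [JSub.val_add, JSub.val_mul, JSub.val_mul, JSub.val_mul, JSub.val_add]
    rw [mul_add, add_mul]; module)
  zero_mul a := JSub.ext' (by rw [JSub.val_mul]; simp)
  mul_zero a := JSub.ext' (by rw [JSub.val_mul]; simp)

instance (J : JSub F M) : IsScalarTower F J.El J.El where
  smul_assoc c x y := JSub.ext' (by
    rw [smul_eq_mul, smul_eq_mul, JSub.val_mul, JSub.val_smul, JSub.val_smul, JSub.val_mul,
      smul_mul_assoc, mul_smul_comm]; module)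

instance (J : JSub F M) : SMulCommClass F J.El J.El where
  smul_comm c x y := JSub.ext' (by
    rw [smul_eq_mul, smul_eq_mul, JSub.val_mul, JSub.val_smul, JSub.val_smul, JSub.val_mul,
      smul_mul_assoc, mul_smul_comm]; module)

variable [CharZero F]

theorem JSub.cu {J : JSub F M} (h1 : (1 : M) ∈ J.S) : CU (J.mk' 1 h1) where
  comm x y := JSub.ext' (by rw [JSub.val_mul, JSub.val_mul, add_comm])
  one x := JSub.ext' (by rw [JSub.val_mul, JSub.val_mk', one_mul, mul_one]; module)

theorem JSub.val_pw {J : JSub F M} (h1 : (1 : M) ∈ J.S) (a : J.El) (k : ℕ) :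
    J.val (pw (J.mk' 1 h1) a k) = J.val a ^ k := by
  induction k with
  | zero => simp [pw]
  | succ k ih =>
    show J.val (a * pw (J.mk' 1 h1) a k) = _
    rw [JSub.val_mul, ih, ← pow_succ, ← pow_succ']; module

/-- the complete symmetric sums `∑ a ^ i x a ^ (k - i)` -/
def csum (a x : M) (k : ℕ) : M := ∑ i ∈ Finset.range (k + 1), a ^ i * x * a ^ (k - i)

theorem csum_left (a x : M) (k : ℕ) : csum a x (k + 1) = a * csum a x k + x * a ^ (k + 1) := by
  unfold csum
  rw [Finset.sum_range_succ', Finset.mul_sum]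
  congr 1
  · apply Finset.sum_congr rfl
    intro i _
    rw [show k + 1 - (i + 1) = k - i by omega, pow_succ' a i]; simp only [mul_assoc]
  · simp

theorem csum_right (a x : M) (k : ℕ) : csum a x (k + 1) = csum a x k * a + a ^ (k + 1) * x := by
  unfold csum
  rw [Finset.sum_range_succ, Finset.sum_mul]
  congr 1
  · apply Finset.sum_congr rfl
    intro i hi
    have hi' := Finset.mem_range.mp hi
    rw [show k + 1 - i = (k - i) + 1 by omega, pow_succ]; simp only [mul_assoc]
  · simp

theorem csum_comm (a x : M) (k : ℕ) (h : a ^ (k + 1) = 0) : a * csum a x k = csum a x k * a := by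
  have h1 := csum_left a x k
  have h2 := csum_right a x k
  rw [h, mul_zero, add_zero] at h1
  rw [h, zero_mul, add_zero] at h2
  rw [← h1, h2]

theorem JSub.val_hh {J : JSub F M} (h1 : (1 : M) ∈ J.S) (a : J.El) (k : ℕ) (x : J.El) :
    J.val (hh (F := F) (J.mk' 1 h1) a k x) = csum (J.val a) (J.val x) k := by
  induction k with
  | zero => show J.val x = _; simp [csum]
  | succ k ih =>
    have e1 : hh (F := F) (J.mk' 1 h1) a (k + 1) x =
        pw (J.mk' 1 h1) a 1 * hh (F := F) (J.mk' 1 h1) a k x + pw (J.mk' 1 h1) a (k + 1) * x := rfl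
    rw [e1, pw_one (JSub.cu h1), JSub.val_add, JSub.val_mul, JSub.val_mul, ih, JSub.val_pw]
    have e2 := csum_left (J.val a) (J.val x) k
    have e3 := csum_right (J.val a) (J.val x) k
    linear_combination (norm := module) (-1 / 2 : F) • e2 - (1 / 2 : F) • e3

/-- Transfer of the abstract bound to special Jordan algebras. -/
theorem JSub.bound [Module.Finite F M] {J : JSub F M} (h1 : (1 : M) ∈ J.S) {n : ℕ} (hn : 2 ≤ n)
    (hnil : ∀ a ∈ J.S, IsNilpotent a → a ^ n = 0)
    (hcent : ∀ a ∈ J.S, a ^ n = 0 → a ^ (n - 1) ≠ 0 → ∀ z ∈ J.S, a * z = z * a →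
      ∃ c : ℕ → F, z = ∑ k ∈ Finset.range n, c k • a ^ k)
    {R : End F J.El} (hR : IsRB R) : R ^ (2 * n - 1) = 0 := by
  have hC := JSub.cu h1
  set e := J.mk' 1 h1 with he
  have hval : ∀ k, J.val (pw e (R e) k) = J.val (R e) ^ k := JSub.val_pw h1 (R e)
  have h0 : J.val (R e) ^ n = 0 := by
    apply hnil _ (JSub.val_mem _)
    obtain ⟨d, hd⟩ := nilp hC hR
    exact ⟨d, by rw [← hval, hd]; rfl⟩
  have h0' : pw e (R e) n = 0 := JSub.ext' (by rw [hval, h0]; rfl)
  refine pow_bound hC hR hn h0' ?_
  intro hne x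
  have hne' : J.val (R e) ^ (n - 1) ≠ 0 := by
    intro h
    exact hne (JSub.ext' (by rw [hval, h]; rfl))
  have hcomm : J.val (R e) * J.val (hh (F := F) e (R e) (n - 1) x) =
      J.val (hh (F := F) e (R e) (n - 1) x) * J.val (R e) := by
    rw [JSub.val_hh]
    apply csum_comm
    rw [show n - 1 + 1 = n by omega]; exact h0
  obtain ⟨c, hc⟩ := hcent _ (JSub.val_mem _) h0 hne' _ (JSub.val_mem _) hcomm
  refine ⟨c, JSub.ext' ?_⟩
  rw [hc]
  have : ∀ (s : Finset ℕ), J.val (∑ k ∈ s, c k • pw e (R e) k) = ∑ k ∈ s, c k • J.val (R e) ^ k := by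
    intro s
    classical
    induction s using Finset.induction_on with
    | empty => simp
    | insert i s hi ih => rw [Finset.sum_insert hi, Finset.sum_insert hi, JSub.val_add, JSub.val_smul, ih, hval]
  rw [this]

end Pool.Agent.R696.RBM
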